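import Mathlib
import Pool.Agent.helper6.GO.Main

/-!
# From an algebraic relation to integrality
-/

namespace Pool.Agent.AR

open Matrix Polynomial Pool.Agent.GO

variable {F : Type*} [Field F] {Γ : Type*} [Group Γ]
variable {ι : Type*} [Fintype ι] [DecidableEq ι] (V : Γ →* Matrix ι ι F)
  (ρ : Γ →* Matrix (Fin 2) (Fin 2) F)

/-- right translation on `alg V` -/
def rtA (h : Γ) : alg V →ₐ[F] alg V :=
  ((rt h).comp (alg V).val).codRestrict (alg V) (fun f => alg_rt V h f.2)

theorem algebraic_trace [NoZeroDivisors (alg V)] (M : Matrix (Fin 2) (Fin 2) F)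
    (P : (alg V)[X]) (hP : P ≠ 0)
    (hrel : aeval (fun u : Γ => (M * ρ u).trace) P = 0) (h : Γ) :
    IsAlgebraic (alg V) (fun u : Γ => (M * ρ u * ρ h).trace) := by
  refine ⟨P.map (rtA V h : alg V →+* alg V), ?_, ?_⟩
  · intro h0
    apply hP
    ext k g
    have h1 := congrArg (fun Q : (alg V)[X] => (Q.coeff k).1 (g * h⁻¹)) h0
    simp only [coeff_map, coeff_zero] at h1
    have h2 : (P.coeff k).1 (g * h⁻¹ * h) = 0 := h1
    rw [inv_mul_cancel_right] at h2
    exact h2
  · have h1 := congrArg (rt h : (Γ → F) →ₐ[F] (Γ → F)) hrel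
    rw [map_zero] at h1
    rw [Polynomial.aeval_def, Polynomial.eval₂_map]
    rw [Polynomial.aeval_def] at h1
    have h2 := Polynomial.hom_eval₂ P (algebraMap (alg V) (Γ → F))
      ((rt h : (Γ → F) →ₐ[F] (Γ → F)) : (Γ → F) →+* (Γ → F)) (fun u : Γ => (M * ρ u).trace)
    have h3 : ((rt h : (Γ → F) →ₐ[F] (Γ → F)) : (Γ → F) →+* (Γ → F))
        (fun u : Γ => (M * ρ u).trace) = fun u : Γ => (M * ρ u * ρ h).trace := by
      ext u
      show (M * ρ (u * h)).trace = _
      rw [map_mul, mul_assoc]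
    rw [h3] at h2
    rw [← h1]
    exact h2.symm

theorem algebraic_coef [NoZeroDivisors (alg V)] (hspan : Submodule.span F (Set.range ρ) = ⊤)
    (M : Matrix (Fin 2) (Fin 2) F) (hM : IsUnit M.det)
    (P : (alg V)[X]) (hP : P ≠ 0)
    (hrel : aeval (fun u : Γ => (M * ρ u).trace) P = 0) (i j : Fin 2) :
    IsAlgebraic (alg V) (fun u : Γ => ρ u i j) := by
  have hsm : ∀ (c : F) (f : Γ → F), IsAlgebraic (alg V) f → IsAlgebraic (alg V) (c • f) := by
    intro c f hf
    have h1 : c • f = (algebraMap F (alg V) c) • f := by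
      ext g
      rfl
    rw [h1]
    exact hf.smul _
  have h1 : ∀ Y : Matrix (Fin 2) (Fin 2) F,
      IsAlgebraic (alg V) (fun u : Γ => (M * ρ u * Y).trace) := by
    intro Y
    have hY : Y ∈ Submodule.span F (Set.range ρ) := by rw [hspan]; trivial
    induction hY using Submodule.span_induction with
    | mem Y hY =>
      obtain ⟨h, rfl⟩ := hY
      exact algebraic_trace V ρ M P hP hrel h
    | zero =>
      have : (fun u : Γ => (M * ρ u * 0).trace) = (0 : Γ → F) := by ext u; simp
      rw [this]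
      exact isAlgebraic_zero
    | add Y Z _ _ hY hZ =>
      have : (fun u : Γ => (M * ρ u * (Y + Z)).trace) =
          (fun u => (M * ρ u * Y).trace) + (fun u => (M * ρ u * Z).trace) := by
        ext u
        simp only [Pi.add_apply, mul_add, Matrix.trace_add]
      rw [this]
      exact hY.add hZ
    | smul c Y _ hY =>
      have : (fun u : Γ => (M * ρ u * (c • Y)).trace) = c • (fun u => (M * ρ u * Y).trace) := by
        ext u
        simp only [Pi.smul_apply, mul_smul_comm, Matrix.trace_smul]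
      rw [this]
      exact hsm c _ hY
  have h2 := h1 (Matrix.single j i 1 * M⁻¹)
  have h3 : (fun u : Γ => (M * ρ u * (Matrix.single j i 1 * M⁻¹)).trace) =
      fun u => ρ u i j := by
    ext u
    have e1 : M * ρ u * (Matrix.single j i 1 * M⁻¹) =
        M * (ρ u * Matrix.single j i 1) * M⁻¹ := by simp only [mul_assoc]
    rw [e1, Matrix.trace_mul_cycle, Matrix.nonsing_inv_mul _ hM, one_mul]
    fin_cases i <;> fin_cases j <;>
      simp [Matrix.trace_fin_two, Matrix.mul_apply, Matrix.single_apply]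
  rwa [h3] at h2

theorem int_lt (h : Γ) {f : Γ → F} (hf : IsIntegral (alg V) f) :
    IsIntegral (alg V) (lt h f) := by
  exact IsIntegral.map_of_comp_eq ((ltA V h : alg V →ₐ[F] alg V) : alg V →+* alg V)
    ((lt h : (Γ → F) →ₐ[F] (Γ → F)) : (Γ → F) →+* (Γ → F)) (by ext x g; rfl) hf

/-- algebraic coefficients are integral -/
theorem coef_integral_of_algebraic [NoZeroDivisors (alg V)]
    (halg : ∀ i j, IsAlgebraic (alg V) (fun u : Γ => ρ u i j)) (i j : Fin 2) :
    IsIntegral (alg V) (fun u : Γ => ρ u i j) := by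
  classical
  choose y hy0 hy using fun p : Fin 2 × Fin 2 => (halg p.1 p.2).exists_integral_multiple
  set s : alg V := ∏ p, y p with hs
  have hs0 : s ≠ 0 := Finset.prod_ne_zero_iff.mpr fun p _ => hy0 p
  have hsint : ∀ p : Fin 2 × Fin 2, IsIntegral (alg V) (s.1 * fun u : Γ => ρ u p.1 p.2) := by
    intro p
    have h1 : s.1 * (fun u : Γ => ρ u p.1 p.2) =
        (∏ q ∈ Finset.univ.erase p, y q) • (y p • (fun u : Γ => ρ u p.1 p.2)) := by
      rw [smul_smul, Finset.prod_erase_mul _ _ (Finset.mem_univ p)]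
      rfl
    rw [h1]
    exact (hy p).smul _
  let J : Submodule F (Γ → F) :=
    { carrier := {f | f ∈ alg V ∧ ∀ p : Fin 2 × Fin 2,
        IsIntegral (alg V) (f * fun u : Γ => ρ u p.1 p.2)}
      add_mem' := by
        rintro f f' ⟨h1, h2⟩ ⟨h1', h2'⟩
        refine ⟨Subalgebra.add_mem _ h1 h1', fun p => ?_⟩
        rw [add_mul]
        exact (h2 p).add (h2' p)
      zero_mem' := by
        refine ⟨Subalgebra.zero_mem _, fun p => ?_⟩
        rw [zero_mul]
        exact isIntegral_zero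
      smul_mem' := by
        rintro c f ⟨h1, h2⟩
        refine ⟨Subalgebra.smul_mem _ h1 c, fun p => ?_⟩
        rw [smul_mul_assoc]
        exact int_smul c (h2 p) }
  have hJA : ∀ f ∈ alg V, ∀ j ∈ J, f * j ∈ J := by
    rintro f hf j ⟨h1, h2⟩
    refine ⟨Subalgebra.mul_mem _ hf h1, fun p => ?_⟩
    rw [mul_assoc]
    exact (int_of_mem hf).mul (h2 p)
  have hJlt : ∀ f ∈ J, ∀ h, lt h f ∈ J := by
    rintro f ⟨h1, h2⟩ h
    refine ⟨alg_lt V h h1, fun p => ?_⟩
    have h3 : (lt h f * fun u : Γ => ρ u p.1 p.2) =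
        ∑ k, ρ h⁻¹ p.1 k • lt h (f * fun g => ρ g k p.2) := by
      ext g
      have h4 : ρ g = ρ h⁻¹ * ρ (h * g) := by rw [← map_mul, inv_mul_cancel_left]
      simp only [Pi.mul_apply, Finset.sum_apply, Pi.smul_apply, lt_apply, smul_eq_mul]
      rw [h4, Matrix.mul_apply, Finset.mul_sum]
      apply Finset.sum_congr rfl
      intro k _
      ring
    rw [h3]
    exact IsIntegral.sum _ fun k _ => int_smul _ (int_lt V h (h2 (k, p.2)))
  have hsJ : s.1 ∈ J := ⟨s.2, hsint⟩
  have hs1 : ∃ u : Γ, s.1 u ≠ 0 := by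
    by_contra hcon
    push Not at hcon
    apply hs0
    apply Subtype.ext
    ext u
    exact hcon u
  obtain ⟨u, hu⟩ := hs1
  have hfJ := hJlt _ hsJ u
  have h1 := one_mem_of_stable (alg V) (fun f hf h => alg_rt V h hf) (fun f hf => alg_iv V hf)
    J hJA (lt u s.1) hfJ.1 (LF_alg V hfJ.1) (fun h => hJlt _ hfJ h) (by
      rw [lt_apply, mul_one]; exact hu)
  have h2 := h1.2 (i, j)
  rwa [one_mul] at h2

end Pool.Agent.AR
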