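import Mathlib

/-!
# Components of a compact group for a Noetherian algebra of continuous functions
-/

namespace Pool.Agent.AR

open MeasureTheory Pointwise

section comp

variable {Γ : Type*} [Group Γ] [TopologicalSpace Γ] [IsTopologicalGroup Γ] [CompactSpace Γ]
  [MeasurableSpace Γ] [BorelSpace Γ]
variable {F : Type*} [Field F] [TopologicalSpace F] [T2Space F]

/-- There is an open subgroup `U` such that a function of the algebra vanishing on a subset of
positive measure of a left coset of `U` vanishes on the coset. -/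
theorem exists_component (μ : Measure Γ) [μ.IsHaarMeasure]
    (A : Subalgebra F (Γ → F)) [IsNoetherianRing A] (hcont : ∀ f ∈ A, Continuous f)
    (hlt : ∀ f ∈ A, ∀ h : Γ, (fun g => f (h * g)) ∈ A) :
    ∃ U : Subgroup Γ, IsOpen (U : Set Γ) ∧ ∀ f ∈ A, ∀ y : Γ,
      μ ({g | f g = 0} ∩ {g | y⁻¹ * g ∈ U}) ≠ 0 → ∀ g, y⁻¹ * g ∈ U → f g = 0 := by
  classical
  -- a maximal ideal with zero set of positive measure
  let Z : Ideal A → Set Γ := fun I => {g | ∀ f ∈ I, f.1 g = 0}
  have hZclosed : ∀ I, IsClosed (Z I) := by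
    intro I
    have : Z I = ⋂ f ∈ I, {g | f.1 g = 0} := by
      ext g; simp [Z]
    rw [this]
    exact isClosed_biInter fun f _ => isClosed_singleton.preimage (hcont f.1 f.2)
  have hne : {I : Ideal A | μ (Z I) ≠ 0}.Nonempty := by
    refine ⟨⊥, ?_⟩
    have h1 : Z ⊥ = Set.univ := by
      ext g
      simp only [Z, Set.mem_univ, iff_true, Set.mem_ofPred_eq]
      intro f hf
      rw [Ideal.mem_bot] at hf
      rw [hf]
      rfl
    show μ (Z ⊥) ≠ 0
    rw [h1]
    exact (Measure.measure_univ_pos.mpr (NeZero.ne μ)).ne'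
  obtain ⟨I, hI, hmax⟩ := set_has_maximal_iff_noetherian.mpr (inferInstance : IsNoetherian A A)
    {I : Ideal A | μ (Z I) ≠ 0} hne
  set C := Z I with hC
  have hCclosed : IsClosed C := hZclosed I
  have hCpos : μ C ≠ 0 := hI
  -- functions vanishing on a positive part of `C` vanish on `C`
  have hP : ∀ f ∈ A, μ ({g | f g = 0} ∩ C) ≠ 0 → ∀ g ∈ C, f g = 0 := by
    intro f hf hpos g hg
    let I' : Ideal A := I ⊔ Ideal.span {⟨f, hf⟩}
    have h1 : {g | f g = 0} ∩ C ⊆ Z I' := by
      rintro x ⟨hx1, hx2⟩ j hj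
      obtain ⟨a, ha, b, hb, rfl⟩ := Submodule.mem_sup.mp hj
      obtain ⟨c, rfl⟩ := Ideal.mem_span_singleton'.mp hb
      have h2 : a.1 x = 0 := hx2 a ha
      have h3 : f x = 0 := hx1
      show a.1 x + c.1 x * f x = 0
      rw [h2, h3, mul_zero, add_zero]
    have h2 : μ (Z I') ≠ 0 := by
      intro h0
      exact hpos (measure_mono_null h1 h0)
    have h3 : ¬ I < I' := hmax I' h2
    have h4 : I' ≤ I := by
      by_contra hcon
      exact h3 (lt_of_le_not_ge le_sup_left hcon)
    have h5 : (⟨f, hf⟩ : A) ∈ I := h4 (Ideal.mem_sup_right (Ideal.mem_span_singleton_self _))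
    exact hg _ h5
  -- translates
  let tr : Γ → Set Γ := fun h => {g | h⁻¹ * g ∈ C}
  have htr_closed : ∀ h, IsClosed (tr h) := fun h =>
    hCclosed.preimage (continuous_const.mul continuous_id)
  have htr_meas : ∀ h, μ (tr h) = μ C := by
    intro h
    exact measure_preimage_mul μ h⁻¹ C
  have hPtr : ∀ h, ∀ f ∈ A, μ ({g | f g = 0} ∩ tr h) ≠ 0 → ∀ g ∈ tr h, f g = 0 := by
    intro h f hf hpos g hg
    have h1 := hP (fun g => f (h * g)) (hlt f hf h) (by
      have h2 : (fun x => h⁻¹ * x) ⁻¹' ({g | f (h * g) = 0} ∩ C) = {g | f g = 0} ∩ tr h := by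
        ext x
        simp [tr]
      rw [← h2, measure_preimage_mul μ h⁻¹] at hpos
      exact hpos) (h⁻¹ * g) hg
    simpa using h1
  -- overlap of positive measure implies equality
  have hsub : ∀ h k, μ (tr h ∩ tr k) ≠ 0 → tr k ⊆ tr h := by
    intro h k hpos x hx
    -- every function vanishing on `tr h` vanishes on `tr k`
    intro f hf
    have h1 : (fun g => f.1 (h⁻¹ * g)) ∈ A := hlt f.1 f.2 h⁻¹
    have h2 := hPtr k _ h1 (by
      intro h0
      apply hpos
      refine measure_mono_null ?_ h0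
      rintro y ⟨hy1, hy2⟩
      exact ⟨hy1 f hf, hy2⟩) x hx
    exact h2
  have heq : ∀ h k, μ (tr h ∩ tr k) ≠ 0 → tr h = tr k := by
    intro h k hpos
    apply Set.Subset.antisymm
    · exact hsub k h (by rwa [Set.inter_comm] at hpos)
    · exact hsub h k hpos
  have hmul : ∀ h k x, x ∈ tr k ↔ h * x ∈ tr (h * k) := by
    intro h k x
    show k⁻¹ * x ∈ C ↔ (h * k)⁻¹ * (h * x) ∈ C
    rw [show (h * k)⁻¹ * (h * x) = k⁻¹ * x by group]
  have htr_mul_eq : ∀ h k l, tr k = tr l ↔ tr (h * k) = tr (h * l) := by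
    intro h k l
    constructor
    · intro he
      ext x
      have h1 := hmul h k (h⁻¹ * x)
      have h2 := hmul h l (h⁻¹ * x)
      rw [mul_inv_cancel_left] at h1 h2
      rw [← h1, ← h2, he]
    · intro he
      ext x
      rw [hmul h k x, hmul h l x, he]
  -- distinct translates are disjoint
  have hfinset : ∀ s : Finset (Set Γ), (∀ t ∈ s, ∃ h, t = tr h) →
      s.card * μ C ≤ μ Set.univ := by
    intro s hs
    have h1 : μ (⋃ t ∈ s, t) = ∑ t ∈ s, μ t := by
      apply measure_biUnion_finset₀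
      · intro t ht u hu htu
        obtain ⟨h, rfl⟩ := hs t ht
        obtain ⟨k, rfl⟩ := hs u hu
        show μ (tr h ∩ tr k) = 0
        by_contra hcon
        exact htu (heq h k hcon)
      · intro t ht
        obtain ⟨h, rfl⟩ := hs t ht
        exact (htr_closed h).measurableSet.nullMeasurableSet
    have h2 : ∑ t ∈ s, μ t = s.card * μ C := by
      have h3 : ∀ t ∈ s, μ t = μ C := by
        intro t ht
        obtain ⟨h, rfl⟩ := hs t ht
        exact htr_meas h
      rw [Finset.sum_congr rfl h3]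
      simp
    rw [← h2, ← h1]
    exact measure_mono (Set.subset_univ _)
  have hfin : (Set.range tr).Finite := by
    by_contra hinf
    have hinf' : (Set.range tr).Infinite := hinf
    have hlt_top : μ Set.univ < ⊤ := isCompact_univ.measure_lt_top
    have h1 : ∀ n : ℕ, (n : ENNReal) * μ C ≤ μ Set.univ := by
      intro n
      obtain ⟨s, hs, hcard⟩ := hinf'.exists_subset_card_eq n
      rw [← hcard]
      apply hfinset s
      intro t ht
      obtain ⟨h, rfl⟩ := hs ht
      exact ⟨h, rfl⟩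
    obtain ⟨n, hn⟩ := ENNReal.exists_nat_mul_gt hCpos hlt_top.ne
    exact absurd (h1 n) (not_le.mpr hn)
  have hdisj : ∀ h k, (tr h ∩ tr k).Nonempty → tr h = tr k := by
    intro h k hne
    obtain ⟨x, hx1, hx2⟩ := hne
    by_contra hcon
    -- every point lies in two distinct translates
    have hcover : (Set.univ : Set Γ) ⊆ ⋃ p ∈ hfin.toFinset ×ˢ hfin.toFinset,
        (if p.1 = p.2 then ∅ else p.1 ∩ p.2) := by
      intro y _
      simp only [Set.mem_iUnion]
      refine ⟨(tr (y * x⁻¹ * h), tr (y * x⁻¹ * k)), ?_, ?_⟩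
      · rw [Finset.mem_product]
        exact ⟨by rw [Set.Finite.mem_toFinset]; exact ⟨_, rfl⟩,
          by rw [Set.Finite.mem_toFinset]; exact ⟨_, rfl⟩⟩
      · rw [if_neg]
        · have h1 := (hmul (y * x⁻¹) h x).mp hx1
          have h2 := (hmul (y * x⁻¹) k x).mp hx2
          rw [inv_mul_cancel_right] at h1 h2
          exact ⟨h1, h2⟩
        · intro he
          exact hcon ((htr_mul_eq (y * x⁻¹) h k).mpr he)
    have hnull : μ (⋃ p ∈ hfin.toFinset ×ˢ hfin.toFinset,
        (if p.1 = p.2 then (∅ : Set Γ) else p.1 ∩ p.2)) = 0 := by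
      refine le_antisymm ((measure_biUnion_finset_le _ _).trans ?_) zero_le
      refine (Finset.sum_eq_zero ?_).le
      rintro ⟨a, b⟩ hp
      rw [Finset.mem_product] at hp
      obtain ⟨ha, hb⟩ := hp
      rw [Set.Finite.mem_toFinset] at ha hb
      obtain ⟨h', rfl⟩ := ha
      obtain ⟨k', rfl⟩ := hb
      simp only
      split_ifs with hif
      · exact measure_empty
      · by_contra hcon'
        exact hif (heq h' k' hcon')
    have h0 : μ Set.univ = 0 := measure_mono_null hcover hnull
    exact (Measure.measure_univ_pos.mpr (NeZero.ne μ)).ne' h0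
  -- the component of the identity
  have hCne : C.Nonempty := nonempty_of_measure_ne_zero hCpos
  obtain ⟨c, hc⟩ := hCne
  -- `tr c⁻¹` contains `1`
  have h1mem : (1 : Γ) ∈ tr c⁻¹ := by
    show (c⁻¹)⁻¹ * 1 ∈ C
    simpa using hc
  have hstab : ∀ u, u ∈ tr c⁻¹ ↔ tr (u * c⁻¹) = tr c⁻¹ := by
    intro u
    constructor
    · intro hu
      apply hdisj
      refine ⟨u, ?_, hu⟩
      have := (hmul u c⁻¹ 1).mp h1mem
      rwa [mul_one] at this
    · intro he
      have := (hmul u c⁻¹ 1).mp h1mem
      rw [mul_one, he] at this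
      exact this
  let U : Subgroup Γ :=
    { carrier := tr c⁻¹
      one_mem' := h1mem
      mul_mem' := by
        intro u v hu hv
        rw [hstab] at hu hv ⊢
        rw [mul_assoc, ← hu]
        exact (htr_mul_eq u _ _).mp hv
      inv_mem' := by
        intro u hu
        rw [hstab] at hu ⊢
        rw [htr_mul_eq u, mul_inv_cancel_left]
        exact hu.symm }
  have hUclosed : IsClosed (U : Set Γ) := htr_closed _
  have hcoset : ∀ y g : Γ, y⁻¹ * g ∈ U ↔ g ∈ tr (y * c⁻¹) := by
    intro y g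
    show y⁻¹ * g ∈ tr c⁻¹ ↔ _
    rw [hmul y c⁻¹ (y⁻¹ * g), mul_inv_cancel_left]
  have hUfin : Finite (Γ ⧸ U) := by
    have := hfin.to_subtype
    let f : Γ ⧸ U → Set.range tr := fun q => ⟨tr (q.out * c⁻¹), ⟨_, rfl⟩⟩
    refine Finite.of_injective f ?_
    intro q1 q2 h
    have h1 : tr (q1.out * c⁻¹) = tr (q2.out * c⁻¹) := congrArg Subtype.val h
    have h2 : q2.out ∈ tr (q1.out * c⁻¹) := by
      rw [h1, ← hcoset, inv_mul_cancel]
      exact U.one_mem
    rw [← hcoset, ← QuotientGroup.eq, QuotientGroup.out_eq', QuotientGroup.out_eq'] at h2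
    exact h2
  have hUfi : U.FiniteIndex := Subgroup.finiteIndex_of_finite_quotient
  refine ⟨U, Subgroup.isOpen_of_isClosed_of_finiteIndex U hUclosed, ?_⟩
  intro f hf y hpos g hg
  have hset : {g | y⁻¹ * g ∈ U} = tr (y * c⁻¹) := by
    ext g
    exact hcoset y g
  rw [hset] at hpos
  exact hPtr _ f hf hpos g ((hcoset y g).mp hg)

end comp

end Pool.Agent.AR
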