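import Mathlib
import Pool.Agent.helper6.GO.Main

/-!
# The adjoint representation of a strongly irreducible two-dimensional representation
-/

namespace Pool.Agent.AR

open Matrix Polynomial Pool.Agent.GO

section coords

variable {F : Type*} [Field F]

/-- coordinates of a trace zero matrix -/
def co (Z : Matrix (Fin 2) (Fin 2) F) : Fin 3 → F := ![Z 0 1, Z 0 0, Z 1 0]

/-- the trace zero matrix with given coordinates -/
def em (x : Fin 3 → F) : Matrix (Fin 2) (Fin 2) F := !![x 1, x 0; x 2, -x 1]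

theorem co_em (x : Fin 3 → F) : co (em x) = x := by
  ext i; fin_cases i <;> simp [co, em]

theorem em_co {Z : Matrix (Fin 2) (Fin 2) F} (h : Z.trace = 0) : em (co Z) = Z := by
  rw [Matrix.trace_fin_two] at h
  have h' : Z 1 1 = -Z 0 0 := by linear_combination h
  ext i j
  fin_cases i <;> fin_cases j <;> simp [co, em, h']

theorem trace_em (x : Fin 3 → F) : (em x).trace = 0 := by
  simp [em, Matrix.trace_fin_two]

theorem em_add (x y : Fin 3 → F) : em (x + y) = em x + em y := by
  ext i j; fin_cases i <;> fin_cases j <;> simp [em]; ring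

theorem em_smul (c : F) (x : Fin 3 → F) : em (c • x) = c • em x := by
  ext i j; fin_cases i <;> fin_cases j <;> simp [em]

theorem em_injective : Function.Injective (em : (Fin 3 → F) → _) := fun x y h => by
  rw [← co_em x, h, co_em]

variable {Γ : Type*} [Group Γ] (ρ : Γ →* Matrix (Fin 2) (Fin 2) F)

/-- the matrix of conjugation by `ρ g` on trace zero matrices -/
def adm (g : Γ) : Matrix (Fin 3) (Fin 3) F :=
  Matrix.of fun i j => co (ρ g * em (Pi.single j 1) * ρ g⁻¹) i

theorem adm_mulVec (g : Γ) (x : Fin 3 → F) :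
    adm ρ g *ᵥ x = co (ρ g * em x * ρ g⁻¹) := by
  ext i
  simp only [Matrix.mulVec, dotProduct, Fin.sum_univ_three, adm, Matrix.of_apply, co, em,
    Matrix.mul_apply, Fin.sum_univ_two]
  fin_cases i <;> simp <;> ring

theorem trace_conj (g : Γ) (Z : Matrix (Fin 2) (Fin 2) F) :
    (ρ g * Z * ρ g⁻¹).trace = Z.trace := by
  rw [Matrix.trace_mul_cycle, ← map_mul, inv_mul_cancel, map_one, one_mul]

theorem em_adm (g : Γ) (x : Fin 3 → F) : em (adm ρ g *ᵥ x) = ρ g * em x * ρ g⁻¹ := by
  rw [adm_mulVec, em_co]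
  rw [trace_conj, trace_em]

/-- the adjoint representation on trace zero matrices -/
def ad0 : Γ →* Matrix (Fin 3) (Fin 3) F where
  toFun g := adm ρ g
  map_one' := by
    ext i j
    have h : adm ρ 1 *ᵥ Pi.single j 1 = Pi.single j 1 := by
      rw [adm_mulVec, inv_one, map_one, one_mul, mul_one, co_em]
    have h2 := congrFun h i
    rw [Matrix.mulVec_single_one] at h2
    show adm ρ 1 i j = _
    rw [show adm ρ 1 i j = (adm ρ 1).col j i from rfl, h2, Matrix.one_apply, Pi.single_apply]
  map_mul' g h := by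
    ext i j
    have h1 : adm ρ (g * h) *ᵥ Pi.single j 1 = (adm ρ g * adm ρ h) *ᵥ Pi.single j 1 := by
      apply em_injective
      rw [em_adm, ← Matrix.mulVec_mulVec, em_adm, em_adm, map_mul, _root_.mul_inv_rev, map_mul]
      simp only [mul_assoc]
    have h2 := congrFun h1 i
    rw [Matrix.mulVec_single_one, Matrix.mulVec_single_one] at h2
    exact h2

theorem ad0_apply (g : Γ) : ad0 ρ g = adm ρ g := rfl

theorem em_ad0 (g : Γ) (x : Fin 3 → F) : em (ad0 ρ g *ᵥ x) = ρ g * em x * ρ g⁻¹ := em_adm ρ g x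

/-- the bracket identity -/
theorem ad0_bracket (g : Γ) :
    ad0 ρ g 1 1 = ad0 ρ g 0 0 * ad0 ρ g 2 2 - ad0 ρ g 0 2 * ad0 ρ g 2 0 := by
  have h1 : ρ g⁻¹ = (ρ g)⁻¹ := by
    rw [Matrix.inv_eq_right_inv (hom_mul_inv ρ g)]
  have hdet := hom_det_ne ρ g
  simp only [ad0_apply, adm, Matrix.of_apply, co, em, Matrix.mul_apply, Fin.sum_univ_two, h1,
    Matrix.inv_def, Matrix.adjugate_fin_two, Matrix.smul_apply, smul_eq_mul,
    Ring.inverse_eq_inv']
  rw [Matrix.det_fin_two] at hdet ⊢
  simp
  field_simp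
  ring

end coords

section irr

variable {F : Type*} [Field F] {Γ : Type*} [Group Γ] (ρ : Γ →* Matrix (Fin 2) (Fin 2) F)

/-- strong irreducibility: irreducible on every subgroup of finite index -/
def SI : Prop := ∀ H : Subgroup Γ, H.FiniteIndex → Irred (fun h : H => ρ h)

theorem SI.irred (h : SI ρ) : Irred (fun g => ρ g) := by
  have h1 := h ⊤ inferInstance
  exact ⟨h1.1, fun U hU => h1.2 U fun g u hu => hU g.1 u hu⟩

theorem SI.restrict (h : SI ρ) (H : Subgroup Γ) (hH : H.FiniteIndex) :
    SI (ρ.comp H.subtype) := by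
  intro H' hH'
  have h1 : (H'.map H.subtype).FiniteIndex := by
    constructor
    rw [Subgroup.index_map_subtype]
    exact mul_ne_zero hH'.index_ne_zero hH.index_ne_zero
  have h2 := h _ h1
  refine ⟨h2.1, fun U hU => h2.2 U ?_⟩
  rintro ⟨g, hg⟩ u hu
  obtain ⟨x, hx, rfl⟩ := hg
  exact hU ⟨x, hx⟩ u hu

/-- an element commuting with an irreducible family is scalar -/
theorem schur [IsAlgClosed F] {Γ' d : Type*} [Fintype d] [DecidableEq d] (τ : Γ' → Matrix d d F)
    (hirr : Irred τ) (X : Matrix d d F) (h : ∀ g, τ g * X = X * τ g) :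
    ∃ c : F, X = c • 1 := by
  have hne := hirr.1
  obtain ⟨c, hc⟩ := IsAlgClosed.exists_root X.charpoly (by
    rw [Matrix.charpoly_degree_eq_dim]
    simp)
  obtain ⟨v, hv, hv'⟩ := (isRoot_iff_exists _ _).mp hc
  let U : Submodule F (d → F) := LinearMap.ker ((X - c • 1).mulVecLin)
  have hU : ∀ x, x ∈ U ↔ X *ᵥ x = c • x := by
    intro x
    rw [LinearMap.mem_ker, Matrix.mulVecLin_apply, Matrix.sub_mulVec, sub_eq_zero,
      Matrix.smul_mulVec, Matrix.one_mulVec]
  rcases hirr.2 U (by
    intro g u hu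
    rw [hU] at hu ⊢
    rw [Matrix.mulVec_mulVec, ← h, ← Matrix.mulVec_mulVec, hu, Matrix.mulVec_smul]) with h1 | h1
  · exfalso
    have h2 : v ∈ U := (hU v).mpr hv'
    rw [h1, Submodule.mem_bot] at h2
    exact hv h2
  · refine ⟨c, ?_⟩
    ext i j
    have h2 : (Pi.single j 1 : d → F) ∈ U := by rw [h1]; trivial
    rw [hU] at h2
    have h3 := congrFun h2 i
    rw [Matrix.mulVec_single_one] at h3
    rw [show X i j = X.col j i from rfl, h3]
    simp [Matrix.one_apply, Pi.single_apply]

theorem no_line [IsAlgClosed F] [CharZero F] (hSI : SI ρ) (X : Matrix (Fin 2) (Fin 2) F)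
    (hX0 : X ≠ 0) (htr : X.trace = 0) (h : ∀ g, ∃ c : F, ρ g * X = c • (X * ρ g)) : False := by
  have hc0 : ∀ g (c : F), ρ g * X = c • (X * ρ g) → c ≠ 0 := by
    intro g c hc h0
    rw [h0, zero_smul] at hc
    apply hX0
    calc X = (ρ g⁻¹ * ρ g) * X := by rw [hom_inv_mul, one_mul]
      _ = ρ g⁻¹ * (ρ g * X) := by rw [mul_assoc]
      _ = 0 := by rw [hc, mul_zero]
  by_cases hdet : X.det = 0
  · obtain ⟨v, hv, hXv⟩ := Matrix.exists_mulVec_eq_zero_iff.mpr hdet
    let U : Submodule F (Fin 2 → F) := LinearMap.ker X.mulVecLin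
    have hU : ∀ x, x ∈ U ↔ X *ᵥ x = 0 := by
      intro x
      rw [LinearMap.mem_ker, Matrix.mulVecLin_apply]
    rcases (SI.irred ρ hSI).2 U (by
      intro g u hu
      rw [hU] at hu ⊢
      obtain ⟨c, hc⟩ := h g
      have h1 : c • (X *ᵥ (ρ g *ᵥ u)) = 0 := by
        rw [Matrix.mulVec_mulVec, ← Matrix.smul_mulVec, ← hc, ← Matrix.mulVec_mulVec, hu,
          Matrix.mulVec_zero]
      exact (smul_eq_zero.mp h1).resolve_left (hc0 g c hc)) with h1 | h1
    · have h2 : v ∈ U := (hU v).mpr hXv
      rw [h1, Submodule.mem_bot] at h2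
      exact hv h2
    · apply hX0
      ext i j
      have h2 : (Pi.single j 1 : Fin 2 → F) ∈ U := by rw [h1]; trivial
      rw [hU] at h2
      have h3 := congrFun h2 i
      rw [Matrix.mulVec_single_one] at h3
      exact h3
  · have hc1 : ∀ g (c : F), ρ g * X = c • (X * ρ g) → c = 1 ∨ c = -1 := by
      intro g c hc
      have h1 := congrArg Matrix.det hc
      rw [Matrix.det_mul, Matrix.det_smul, Matrix.det_mul, Fintype.card_fin] at h1
      have h2 := hom_det_ne ρ g
      have h3 : (c ^ 2 - 1) * (X.det * (ρ g).det) = 0 := by linear_combination -h1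
      have h4 : c ^ 2 - 1 = 0 := (mul_eq_zero.mp h3).resolve_right (mul_ne_zero hdet h2)
      have h5 : (c - 1) * (c + 1) = 0 := by linear_combination h4
      rcases mul_eq_zero.mp h5 with h6 | h6
      · left; linear_combination h6
      · right; linear_combination h6
    let H : Subgroup Γ :=
      { carrier := {g | ρ g * X = X * ρ g}
        one_mem' := by simp
        mul_mem' := by
          intro a b ha hb
          show ρ (a * b) * X = X * ρ (a * b)
          have ha' : ρ a * X = X * ρ a := ha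
          have hb' : ρ b * X = X * ρ b := hb
          rw [map_mul, mul_assoc, hb', ← mul_assoc, ha', mul_assoc]
        inv_mem' := by
          intro a ha
          have ha' : ρ a * X = X * ρ a := ha
          show ρ a⁻¹ * X = X * ρ a⁻¹
          calc ρ a⁻¹ * X = ρ a⁻¹ * (X * (ρ a * ρ a⁻¹)) := by rw [hom_mul_inv, mul_one]
            _ = ρ a⁻¹ * ((X * ρ a) * ρ a⁻¹) := by rw [mul_assoc X]
            _ = ρ a⁻¹ * ((ρ a * X) * ρ a⁻¹) := by rw [ha']
            _ = (ρ a⁻¹ * ρ a) * (X * ρ a⁻¹) := by simp only [mul_assoc]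
            _ = X * ρ a⁻¹ := by rw [hom_inv_mul, one_mul] }
    have hmem : ∀ g, g ∈ H ↔ ρ g * X = X * ρ g := fun g => Iff.rfl
    have hneg : ∀ g, g ∉ H → ρ g * X = -(X * ρ g) := by
      intro g hg
      obtain ⟨c, hc⟩ := h g
      rcases hc1 g c hc with h1 | h1
      · exfalso
        apply hg
        rw [hmem, hc, h1, one_smul]
      · rw [hc, h1, neg_one_smul]
    have hfin : Finite (Γ ⧸ H) := by
      classical
      let f : Γ ⧸ H → Bool := fun q => decide (q.out ∈ H)
      refine Finite.of_injective f ?_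
      intro q1 q2 hq
      have h1 : (q1.out ∈ H ↔ q2.out ∈ H) := by simpa [f] using hq
      have h2 : (q1.out)⁻¹ * q2.out ∈ H := by
        by_cases h3 : q1.out ∈ H
        · exact H.mul_mem (H.inv_mem h3) (h1.mp h3)
        · have h4 : q2.out ∉ H := fun h5 => h3 (h1.mpr h5)
          have e1 := hneg _ h3
          have e2 := hneg _ h4
          rw [hmem, map_mul]
          have e3 : ρ (q1.out)⁻¹ * X = -(X * ρ (q1.out)⁻¹) := by
            calc ρ (q1.out)⁻¹ * X = ρ (q1.out)⁻¹ * (X * (ρ q1.out * ρ (q1.out)⁻¹)) := by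
                  rw [hom_mul_inv, mul_one]
              _ = ρ (q1.out)⁻¹ * ((X * ρ q1.out) * ρ (q1.out)⁻¹) := by rw [mul_assoc X]
              _ = ρ (q1.out)⁻¹ * ((-(ρ q1.out * X)) * ρ (q1.out)⁻¹) := by rw [e1, neg_neg]
              _ = -((ρ (q1.out)⁻¹ * ρ q1.out) * (X * ρ (q1.out)⁻¹)) := by
                  simp only [mul_assoc, neg_mul, mul_neg]
              _ = -(X * ρ (q1.out)⁻¹) := by rw [hom_inv_mul, one_mul]
          rw [mul_assoc, e2, mul_neg, ← mul_assoc, e3, neg_mul, neg_neg, mul_assoc]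
      rw [← QuotientGroup.eq, QuotientGroup.out_eq', QuotientGroup.out_eq'] at h2
      exact h2
    have hHfi : H.FiniteIndex := Subgroup.finiteIndex_of_finite_quotient
    obtain ⟨c, hc⟩ := schur _ (hSI H hHfi) X (fun g => g.2)
    rw [hc] at htr
    simp only [Matrix.trace_smul, Matrix.trace_one, Fintype.card_fin, smul_eq_mul] at htr
    have h2 : c = 0 := by
      rcases mul_eq_zero.mp htr with h3 | h3
      · exact h3
      · exfalso; norm_num at h3
    exact hX0 (by rw [hc, h2, zero_smul])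

/-- the centraliser of a nonzero trace zero matrix in the trace zero matrices is a line -/
theorem comm_dep (x y : Fin 3 → F) (hx : x ≠ 0) [CharZero F] (h : em x * em y = em y * em x) :
    ∃ c : F, y = c • x := by
  have h00 := congrFun (congrFun h 0) 0
  have h01 := congrFun (congrFun h 0) 1
  have h10 := congrFun (congrFun h 1) 0
  simp [em, Matrix.mul_apply, Fin.sum_univ_two] at h00 h01 h10
  have two : (2 : F) ≠ 0 := two_ne_zero
  have e02 : x 0 * y 2 = y 0 * x 2 := by linear_combination h00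
  have e10 : x 1 * y 0 = y 1 * x 0 := by
    have : (2 : F) * (x 1 * y 0 - y 1 * x 0) = 0 := by linear_combination h01
    have := (mul_eq_zero.mp this).resolve_left two
    linear_combination this
  have e12 : x 2 * y 1 = y 2 * x 1 := by
    have : (2 : F) * (x 2 * y 1 - y 2 * x 1) = 0 := by linear_combination h10
    have := (mul_eq_zero.mp this).resolve_left two
    linear_combination this
  obtain ⟨i, hi⟩ := Function.ne_iff.mp hx
  have hi' : x i ≠ 0 := hi
  refine ⟨y i / x i, ?_⟩
  ext j
  rw [Pi.smul_apply, smul_eq_mul, div_mul_eq_mul_div, eq_div_iff hi']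
  have key : ∀ i j, y j * x i = y i * x j := by
    intro i j
    fin_cases i <;> fin_cases j <;> simp <;>
      first
      | ring1
      | linear_combination e02
      | linear_combination -e02
      | linear_combination e10
      | linear_combination -e10
      | linear_combination e12
      | linear_combination -e12
  exact key i j

theorem ad0_irred [IsAlgClosed F] [CharZero F] (hSI : SI ρ) : Irred (fun g => ad0 ρ g) := by
  refine ⟨⟨0⟩, fun U hU => ?_⟩
  by_contra hcon
  push Not at hcon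
  obtain ⟨hbot, htop⟩ := hcon
  have hfr : Module.finrank F U < 3 := by
    have := Submodule.finrank_lt htop
    simpa using this
  have hpos : 0 < Module.finrank F U := by
    rw [Module.finrank_pos_iff_exists_ne_zero]
    obtain ⟨u, hu, hu0⟩ := Submodule.exists_mem_ne_zero_of_ne_bot hbot
    exact ⟨⟨u, hu⟩, fun h => hu0 (congrArg Subtype.val h)⟩
  have hcases : Module.finrank F U = 1 ∨ Module.finrank F U = 2 := by omega
  rcases hcases with h1 | h2
  · -- a stable line
    obtain ⟨v, hv0, hv⟩ := finrank_eq_one_iff'.mp h1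
    apply no_line ρ hSI (em v.1) ?_ (trace_em _)
    · intro g
      obtain ⟨c, hc⟩ := hv ⟨ad0 ρ g *ᵥ v.1, hU g v.1 v.2⟩
      refine ⟨c, ?_⟩
      have h3 : ad0 ρ g *ᵥ v.1 = c • v.1 := (congrArg Subtype.val hc).symm
      have h4 := em_ad0 ρ g v.1
      rw [h3, em_smul] at h4
      calc ρ g * em v.1 = (ρ g * em v.1 * ρ g⁻¹) * ρ g := by
            rw [mul_assoc, hom_inv_mul, mul_one]
        _ = c • (em v.1 * ρ g) := by rw [← h4, smul_mul_assoc]
    · intro h0
      apply hv0
      apply Subtype.ext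
      apply em_injective
      rw [h0]
      ext i j
      fin_cases i <;> fin_cases j <;> simp [em]
  · -- a stable plane gives a stable line by the bracket
    let b := Module.finBasisOfFinrankEq F U h2
    set x : Fin 3 → F := (b 0).1 with hx
    set y : Fin 3 → F := (b 1).1 with hy
    have hxU : x ∈ U := (b 0).2
    have hyU : y ∈ U := (b 1).2
    have hxy : ∀ z ∈ U, ∃ p q : F, z = p • x + q • y := by
      intro z hz
      have h3 := b.sum_repr ⟨z, hz⟩
      rw [Fin.sum_univ_two] at h3
      refine ⟨b.repr ⟨z, hz⟩ 0, b.repr ⟨z, hz⟩ 1, ?_⟩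
      exact (congrArg Subtype.val h3).symm
    have hx0 : x ≠ 0 := fun h0 => b.ne_zero 0 (Subtype.ext h0)
    have hdep : ¬ ∃ c : F, y = c • x := by
      rintro ⟨c, hc⟩
      have h3 := b.linearIndependent
      rw [Fintype.linearIndependent_iff] at h3
      have h4 := h3 ![c, -1] (by
        rw [Fin.sum_univ_two]
        apply Subtype.ext
        show c • x + (-1 : F) • y = 0
        rw [hc]
        simp) 1
      simp at h4
    set Z : Matrix (Fin 2) (Fin 2) F := em x * em y - em y * em x with hZ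
    apply no_line ρ hSI Z ?_ ?_
    · intro g
      obtain ⟨p, q, h3⟩ := hxy _ (hU g x hxU)
      obtain ⟨r, s, h4⟩ := hxy _ (hU g y hyU)
      have h5 := em_ad0 ρ g x
      have h6 := em_ad0 ρ g y
      rw [h3, em_add, em_smul, em_smul] at h5
      rw [h4, em_add, em_smul, em_smul] at h6
      refine ⟨p * s - q * r, ?_⟩
      have h7 : ρ g * Z * ρ g⁻¹ = (p * s - q * r) • Z := by
        have e1 : ρ g * Z * ρ g⁻¹ = (ρ g * em x * ρ g⁻¹) * (ρ g * em y * ρ g⁻¹) -
            (ρ g * em y * ρ g⁻¹) * (ρ g * em x * ρ g⁻¹) := by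
          have e2 : ∀ A B : Matrix (Fin 2) (Fin 2) F,
              (ρ g * A * ρ g⁻¹) * (ρ g * B * ρ g⁻¹) = ρ g * (A * B) * ρ g⁻¹ := by
            intro A B
            calc (ρ g * A * ρ g⁻¹) * (ρ g * B * ρ g⁻¹) =
                ρ g * A * (ρ g⁻¹ * ρ g) * B * ρ g⁻¹ := by simp only [mul_assoc]
              _ = ρ g * (A * B) * ρ g⁻¹ := by rw [hom_inv_mul, mul_one]; simp only [mul_assoc]
          rw [e2, e2, hZ, mul_sub, sub_mul]
        rw [e1, ← h5, ← h6, hZ]
        simp only [add_mul, mul_add, smul_mul_assoc, mul_smul_comm, smul_add, smul_sub,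
          sub_smul, smul_smul]
        module
      calc ρ g * Z = (ρ g * Z * ρ g⁻¹) * ρ g := by rw [mul_assoc, hom_inv_mul, mul_one]
        _ = (p * s - q * r) • (Z * ρ g) := by rw [h7, smul_mul_assoc]
    · intro h0
      exact hdep (comm_dep x y hx0 (sub_eq_zero.mp h0))
    · rw [hZ, Matrix.trace_sub, Matrix.trace_mul_comm, sub_self]

/-- strong irreducibility may be tested on open subgroups -/
theorem SI_of_open [TopologicalSpace Γ] [IsTopologicalGroup Γ] [TopologicalSpace F]
    [IsTopologicalRing F] [T2Space F] (hρ : Continuous ρ)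
    (h : ∀ U : Subgroup Γ, IsOpen (U : Set Γ) → Irred (fun u : U => ρ u)) : SI ρ := by
  intro H hH
  refine ⟨⟨0⟩, fun W hW => ?_⟩
  -- the stabiliser of `W`
  obtain ⟨W', hW'⟩ := W.exists_isCompl
  have hWclosed : IsClosed (W : Set (Fin 2 → F)) := by
    let pr : (Fin 2 → F) →ₗ[F] (Fin 2 → F) := W'.subtype ∘ₗ W'.projectionOnto W hW'.symm
    have hpr : Continuous pr := LinearMap.continuous_on_pi pr
    have h1 : (W : Set (Fin 2 → F)) = pr ⁻¹' {0} := by
      ext x
      rw [SetLike.mem_coe, Set.mem_preimage, Set.mem_singleton_iff]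
      show _ ↔ ((W'.projectionOnto W hW'.symm x : W') : Fin 2 → F) = 0
      rw [ZeroMemClass.coe_eq_zero]
      exact (Submodule.projectionOnto_apply_eq_zero_iff hW'.symm).symm
    rw [h1]
    exact isClosed_singleton.preimage hpr
  let S : Subgroup Γ :=
    { carrier := {g | (∀ w ∈ W, ρ g *ᵥ w ∈ W) ∧ ∀ w ∈ W, ρ g⁻¹ *ᵥ w ∈ W}
      one_mem' := by
        refine ⟨fun w hw => ?_, fun w hw => ?_⟩
        · rw [map_one, Matrix.one_mulVec]; exact hw
        · rw [inv_one, map_one, Matrix.one_mulVec]; exact hw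
      mul_mem' := by
        rintro a b ⟨ha, ha'⟩ ⟨hb, hb'⟩
        refine ⟨fun w hw => ?_, fun w hw => ?_⟩
        · rw [map_mul, ← Matrix.mulVec_mulVec]
          exact ha _ (hb _ hw)
        · rw [_root_.mul_inv_rev, map_mul, ← Matrix.mulVec_mulVec]
          exact hb' _ (ha' _ hw)
      inv_mem' := by
        rintro a ⟨ha, ha'⟩
        exact ⟨ha', by simpa using ha⟩ }
  have hHS : H ≤ S := fun g hg =>
    ⟨fun w hw => hW ⟨g, hg⟩ w hw, fun w hw => hW ⟨g⁻¹, H.inv_mem hg⟩ w hw⟩
  have hSfi : S.FiniteIndex := Subgroup.finiteIndex_of_le hHS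
  have hcont : ∀ w : Fin 2 → F, Continuous fun g => ρ g *ᵥ w := fun w =>
    hρ.matrix_mulVec continuous_const
  have hSclosed : IsClosed (S : Set Γ) := by
    have h1 : (S : Set Γ) = (⋂ w ∈ W, (fun g => ρ g *ᵥ w) ⁻¹' (W : Set (Fin 2 → F))) ∩
        ⋂ w ∈ W, (fun g => ρ g⁻¹ *ᵥ w) ⁻¹' (W : Set (Fin 2 → F)) := by
      ext g
      simp only [Set.mem_inter_iff, Set.mem_iInter, Set.mem_preimage, SetLike.mem_coe]
      rfl
    rw [h1]
    refine IsClosed.inter ?_ ?_
    · exact isClosed_biInter fun w _ => hWclosed.preimage (hcont w)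
    · exact isClosed_biInter fun w _ =>
        hWclosed.preimage ((hcont w).comp continuous_inv)
  have hSopen := Subgroup.isOpen_of_isClosed_of_finiteIndex S hSclosed
  exact (h S hSopen).2 W fun g w hw => g.2.1 w hw

end irr

end Pool.Agent.AR
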