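import Mathlib
import Pool.Agent.helper6.GO.Main

/-!
# Coefficients of a representation from uniqueness of the extension of characters

`A = alg V ⊆ B = alg (V ⊕ τ)`, `B` integral over `A`, and the only character of `B` extending
evaluation at `1` on `A` is evaluation at `1`. Then the coefficients of `τ` belong to `A`.
-/

namespace Pool.Agent.AR

open Matrix Polynomial Pool.Agent.GO

variable {F : Type*} [Field F] {Γ : Type*} [Group Γ]
variable {ι κ : Type*} [Fintype ι] [DecidableEq ι] [Fintype κ] [DecidableEq κ]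
  (V : Γ →* Matrix ι ι F) (τ : Γ →* Matrix κ κ F)

/-- direct sum of two matrix representations -/
def ds : Γ →* Matrix (ι ⊕ κ) (ι ⊕ κ) F where
  toFun g := Matrix.fromBlocks (V g) 0 0 (τ g)
  map_one' := by rw [map_one, map_one, Matrix.fromBlocks_one]
  map_mul' g h := by rw [map_mul, map_mul, Matrix.fromBlocks_multiply]; simp

theorem alg_le_ds : alg V ≤ alg (ds V τ) :=
  alg_le V (fun i j => coef_mem (ds V τ) (Sum.inl i) (Sum.inl j))
    (fun i j => coefInv_mem (ds V τ) (Sum.inl i) (Sum.inl j))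

theorem alg_le_ds' : alg τ ≤ alg (ds V τ) :=
  alg_le τ (fun i j => coef_mem (ds V τ) (Sum.inr i) (Sum.inr j))
    (fun i j => coefInv_mem (ds V τ) (Sum.inr i) (Sum.inr j))

theorem matOf_blocks (φ : alg (ds V τ) →ₐ[F] F) :
    matOf (ds V τ) φ = Matrix.fromBlocks (matOf (ds V τ) φ).toBlocks₁₁ 0 0
      (matOf (ds V τ) φ).toBlocks₂₂ := by
  ext i j
  rcases i with i | i <;> rcases j with j | j
  · rfl
  · show φ (gen (ds V τ) (Sum.inl i) (Sum.inr j)) = 0
    have : gen (ds V τ) (Sum.inl i) (Sum.inr j) = 0 := by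
      apply Subtype.ext
      ext g
      rfl
    rw [this, map_zero]
  · show φ (gen (ds V τ) (Sum.inr i) (Sum.inl j)) = 0
    have : gen (ds V τ) (Sum.inr i) (Sum.inl j) = 0 := by
      apply Subtype.ext
      ext g
      rfl
    rw [this, map_zero]
  · rfl

/-- uniqueness at `1` gives uniqueness everywhere -/
theorem unique_all
    (h1 : ∀ φ : alg (ds V τ) →ₐ[F] F, (matOf (ds V τ) φ).toBlocks₁₁ = 1 →
      (matOf (ds V τ) φ).toBlocks₂₂ = 1)
    (g : Γ) (φ : alg (ds V τ) →ₐ[F] F) (hφ : (matOf (ds V τ) φ).toBlocks₁₁ = V g) :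
    φ = evG (ds V τ) g := by
  set ψ := conv (ds V τ) (evG (ds V τ) g⁻¹) φ with hψ
  have hm : matOf (ds V τ) ψ = Matrix.fromBlocks (V g⁻¹ * V g) 0 0
      (τ g⁻¹ * (matOf (ds V τ) φ).toBlocks₂₂) := by
    rw [hψ, matOf_conv, matOf_ev, matOf_blocks V τ φ, hφ]
    show Matrix.fromBlocks (V g⁻¹) 0 0 (τ g⁻¹) * _ = _
    rw [Matrix.fromBlocks_multiply]
    simp
  have h2 := h1 ψ (by
    rw [hm, Matrix.toBlocks_fromBlocks₁₁, ← map_mul, inv_mul_cancel, map_one])
  rw [hm, Matrix.toBlocks_fromBlocks₂₂] at h2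
  have h3 : (matOf (ds V τ) φ).toBlocks₂₂ = τ g := by
    calc (matOf (ds V τ) φ).toBlocks₂₂ = (τ g * τ g⁻¹) * (matOf (ds V τ) φ).toBlocks₂₂ := by
          rw [← map_mul, mul_inv_cancel, map_one, one_mul]
      _ = τ g * (τ g⁻¹ * (matOf (ds V τ) φ).toBlocks₂₂) := by rw [mul_assoc]
      _ = τ g := by rw [h2, mul_one]
  apply ext_gen
  rw [matOf_blocks V τ φ, hφ, h3, matOf_ev]
  rfl

/-- `alg (V ⊕ τ)` is finite over `alg V` when the coefficients of `τ` are integral -/
theorem alg_ds_integral (hint : ∀ i j, IsIntegral (alg V) (fun g => τ g i j))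
    (f : Γ → F) (hf : f ∈ alg (ds V τ)) : IsIntegral (alg V) f := by
  have hint' : ∀ i j, IsIntegral (alg V) (fun g => τ g⁻¹ i j) := fun i j =>
    int_iv V (hint i j)
  unfold alg at hf
  induction hf using Algebra.adjoin_induction with
  | mem x hx =>
    rcases hx with ⟨⟨i | i, j | j⟩, rfl⟩ | ⟨⟨i | i, j | j⟩, rfl⟩
    · exact int_of_mem (coef_mem V i j)
    · exact isIntegral_zero
    · exact isIntegral_zero
    · exact hint i j
    · exact int_of_mem (coefInv_mem V i j)
    · exact isIntegral_zero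
    · exact isIntegral_zero
    · exact hint' i j
  | algebraMap r => exact int_of_mem (Subalgebra.algebraMap_mem _ r)
  | add x y _ _ hx hy => exact hx.add hy
  | mul x y _ _ hx hy => exact hx.mul hy

theorem exists_den' [IsAlgClosed F] [CharZero F]
    (hint : ∀ i j, IsIntegral (alg V) (fun g => τ g i j))
    (h1 : ∀ φ : alg (ds V τ) →ₐ[F] F, (matOf (ds V τ) φ).toBlocks₁₁ = 1 →
      (matOf (ds V τ) φ).toBlocks₂₂ = 1) (i j : κ) :
    ∃ s : Γ → F, s ∈ alg V ∧ s 1 ≠ 0 ∧ (fun g => s g * τ g i j) ∈ alg V := by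
  let A := alg V
  let B := alg (ds V τ)
  have hAB : A ≤ B := alg_le_ds V τ
  letI : Algebra A B := (Subalgebra.inclusion hAB).toRingHom.toAlgebra
  have : IsScalarTower F A B := IsScalarTower.of_algebraMap_eq fun _ => rfl
  have hft : Algebra.FiniteType F B := finiteType_alg (ds V τ)
  have hft' : Algebra.FiniteType A B := Algebra.FiniteType.of_restrictScalars_finiteType F A B
  let incl : B →ₐ[A] (Γ → F) := { B.val.toRingHom with commutes' := fun _ => rfl }
  have hinj : Function.Injective incl := Subtype.val_injective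
  have hint : Algebra.IsIntegral A B := ⟨fun b =>
    (isIntegral_algHom_iff incl hinj).mp (alg_ds_integral V τ hint b.1 b.2)⟩
  have hfinite : Module.Finite A B := Algebra.IsIntegral.finite
  have hu : ∀ g, ∀ φ : B →ₐ[F] F, (∀ a : A, φ (algebraMap A B a) = evG V g a) →
      ∀ b : B, φ b = evG (ds V τ) g b := by
    intro g φ hφ b
    have h1 : φ = evG (ds V τ) g := by
      apply unique_all V τ h1 g φ
      ext i j
      exact hφ (gen V i j)
    rw [h1]
  have hdim : ∀ g, Module.finrank F (B ⧸ fib B (evG V) g) =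
      Module.finrank F (B ⧸ fib B (evG V) 1) := by
    intro g
    have hmap : fib B (evG V) 1 = (fib B (evG V) g).map (ltE (ds V τ) g : B →+* B) := by
      unfold fib
      rw [Ideal.map_map]
      have hc : (ltE (ds V τ) g : B →+* B).comp (algebraMap A B) =
          (algebraMap A B).comp (ltE V g : A →+* A) := by
        ext a
        rfl
      rw [hc, ← Ideal.map_map]
      congr 1
      have h1 : RingHom.ker (evG V g) =
          (RingHom.ker (evG V 1)).comap (ltE V g : A →+* A) := by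
        ext a
        rw [Ideal.mem_comap, RingHom.mem_ker, RingHom.mem_ker]
        show a.1 g = 0 ↔ a.1 (g * 1) = 0
        rw [mul_one]
      rw [h1, Ideal.map_comap_of_surjective]
      exact (ltE V g).surjective
    exact (Ideal.quotientEquivAlg _ _ (ltE (ds V τ) g) hmap).toLinearEquiv.finrank_eq
  obtain ⟨s, a, hs, ha⟩ := exists_denominator (F := F) (A := A) (B := B) (evG V)
    (evG (ds V τ)) (fun _ _ => rfl) hu hdim (gen (ds V τ) (Sum.inr i) (Sum.inr j))
  refine ⟨s.1, s.2, hs, ?_⟩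
  have h2 : (fun g => s.1 g * τ g i j) = a.1 := by
    ext g
    exact ha g
  rw [h2]
  exact a.2

/-- The matrix coefficients of `τ` belong to `alg V`. -/
theorem coef_mem_of_unique [IsAlgClosed F] [CharZero F]
    (hint : ∀ i j, IsIntegral (alg V) (fun g => τ g i j))
    (h1 : ∀ φ : alg (ds V τ) →ₐ[F] F, (matOf (ds V τ) φ).toBlocks₁₁ = 1 →
      (matOf (ds V τ) φ).toBlocks₂₂ = 1) (i j : κ) :
    (fun g => τ g i j) ∈ alg V := by
  choose s hsA hs1 hsx using fun p : κ × κ => exists_den' V τ hint h1 p.1 p.2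
  let J : Submodule F (Γ → F) :=
    { carrier := {f | f ∈ alg V ∧ ∀ p : κ × κ, (fun g => f g * τ g p.1 p.2) ∈ alg V}
      add_mem' := by
        rintro f f' ⟨h1, h2⟩ ⟨h1', h2'⟩
        refine ⟨Subalgebra.add_mem _ h1 h1', fun p => ?_⟩
        have : (fun g => (f + f') g * τ g p.1 p.2) =
            (fun g => f g * τ g p.1 p.2) + (fun g => f' g * τ g p.1 p.2) := by
          ext g; simp [add_mul]
        rw [this]
        exact Subalgebra.add_mem _ (h2 p) (h2' p)
      zero_mem' := by
        refine ⟨Subalgebra.zero_mem _, fun p => ?_⟩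
        have : (fun g => (0 : Γ → F) g * τ g p.1 p.2) = 0 := by ext g; simp
        rw [this]
        exact Subalgebra.zero_mem _
      smul_mem' := by
        rintro c f ⟨h1, h2⟩
        refine ⟨Subalgebra.smul_mem _ h1 c, fun p => ?_⟩
        have : (fun g => (c • f) g * τ g p.1 p.2) = c • (fun g => f g * τ g p.1 p.2) := by
          ext g; simp [mul_assoc]
        rw [this]
        exact Subalgebra.smul_mem _ (h2 p) c }
  have hJA : ∀ f ∈ alg V, ∀ j ∈ J, f * j ∈ J := by
    rintro f hf j ⟨h1, h2⟩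
    refine ⟨Subalgebra.mul_mem _ hf h1, fun p => ?_⟩
    have : (fun g => (f * j) g * τ g p.1 p.2) = f * (fun g => j g * τ g p.1 p.2) := by
      ext g; simp [mul_assoc]
    rw [this]
    exact Subalgebra.mul_mem _ hf (h2 p)
  have hJlt : ∀ f ∈ J, ∀ h, lt h f ∈ J := by
    rintro f ⟨h1, h2⟩ h
    refine ⟨alg_lt V h h1, fun p => ?_⟩
    have h3 : (fun g => lt h f g * τ g p.1 p.2) =
        fun g => ∑ k, τ h⁻¹ p.1 k * (lt h (fun g => f g * τ g k p.2)) g := by
      ext g
      have h4 : τ g = τ h⁻¹ * τ (h * g) := by rw [← map_mul, inv_mul_cancel_left]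
      rw [h4, Matrix.mul_apply, Finset.mul_sum]
      apply Finset.sum_congr rfl
      intro k _
      simp only [lt_apply]
      ring
    rw [h3]
    exact sum_mem_fun _ _ (fun k => lt h (fun g => f g * τ g k p.2))
      fun k _ => alg_lt V h (h2 (k, p.2))
  have hprodA : ∀ t : Finset (κ × κ), (∏ p ∈ t, s p) ∈ alg V := fun t =>
    Subalgebra.prod_mem _ fun p _ => hsA p
  have hS : (∏ p, s p) ∈ J := by
    refine ⟨hprodA _, fun p => ?_⟩
    have : (fun g => (∏ p, s p) g * τ g p.1 p.2) =
        (∏ q ∈ Finset.univ.erase p, s q) * (fun g => s p g * τ g p.1 p.2) := by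
      ext g
      rw [← Finset.prod_erase_mul Finset.univ s (Finset.mem_univ p)]
      simp only [Pi.mul_apply]
      ring
    rw [this]
    exact Subalgebra.mul_mem _ (hprodA _) (hsx p)
  have hS1 : (∏ p, s p) 1 ≠ 0 := by
    rw [Finset.prod_apply]
    exact Finset.prod_ne_zero_iff.mpr fun p _ => hs1 p
  have h1 := one_mem_of_stable (alg V) (fun f hf h => alg_rt V h hf) (fun f hf => alg_iv V hf)
    J hJA (∏ p, s p) (hprodA _) (LF_alg V (hprodA _)) (fun h => hJlt _ hS h) hS1
  have h2 := h1.2 (i, j)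
  simpa using h2

end Pool.Agent.AR
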