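import Mathlib
import Pool.Agent.helper85.AR.Gen
import Pool.Agent.helper85.AR.Ad

/-!
# Uniqueness of the extension of characters for the adjoint representation
-/

namespace Pool.Agent.AR

open Matrix Polynomial Pool.Agent.GO

section fin

variable {F : Type*} [Field F] {Γ : Type*} [Group Γ]
variable {ι κ : Type*} [Fintype ι] [DecidableEq ι] [Fintype κ] [DecidableEq κ]
  (V : Γ →* Matrix ι ι F) (τ : Γ →* Matrix κ κ F)

/-- the matrices of the characters extending evaluation at `1` -/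
def kset : Set (Matrix κ κ F) :=
  {M | ∃ φ : alg (ds V τ) →ₐ[F] F, (matOf (ds V τ) φ).toBlocks₁₁ = 1 ∧
    (matOf (ds V τ) φ).toBlocks₂₂ = M}

theorem kset_finite (hint : ∀ i j, IsIntegral (alg V) (fun g => τ g i j)) :
    (kset V τ).Finite := by
  let A := alg V
  let B := alg (ds V τ)
  have hAB : A ≤ B := alg_le_ds V τ
  let : Algebra A B := (Subalgebra.inclusion hAB).toRingHom.toAlgebra
  have : IsScalarTower F A B := IsScalarTower.of_algebraMap_eq fun _ => rfl
  have hft : Algebra.FiniteType F B := finiteType_alg (ds V τ)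
  have hft' : Algebra.FiniteType A B := Algebra.FiniteType.of_restrictScalars_finiteType F A B
  let incl : B →ₐ[A] (Γ → F) := { B.val.toRingHom with commutes' := fun _ => rfl }
  have hinj : Function.Injective incl := Subtype.val_injective
  have hint' : Algebra.IsIntegral A B := ⟨fun b =>
    (isIntegral_algHom_iff incl hinj).mp (alg_ds_integral V τ hint b.1 b.2)⟩
  have hfinite : Module.Finite A B := Algebra.IsIntegral.finite
  have hfin : Module.Finite F (B ⧸ fib B (evG V) 1) := finite_fib (B := B) (evG V) 1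
  let r : (B ⧸ fib B (evG V) 1 →ₐ[F] F) → Matrix κ κ F := fun ψ =>
    Matrix.of fun i j => ψ (Ideal.Quotient.mk _ (gen (ds V τ) (Sum.inr i) (Sum.inr j)))
  refine (Set.finite_range r).subset ?_
  rintro M ⟨φ, h1, h2⟩
  have hφ : φ.comp (Subalgebra.inclusion hAB) = evG V 1 := by
    apply ext_gen
    rw [matOf_ev, map_one, ← h1]
    rfl
  have hker : ∀ b : B, b ∈ fib B (evG V) 1 → φ b = 0 := by
    have h3 : fib B (evG V) 1 ≤ RingHom.ker φ := by
      rw [fib, Ideal.map_le_iff_le_comap]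
      intro a ha
      rw [Ideal.mem_comap, RingHom.mem_ker]
      have h4 : φ (algebraMap A B a) = evG V 1 a := congrArg (fun f : A →ₐ[F] F => f a) hφ
      rw [h4]
      exact ha
    exact fun b hb => h3 hb
  refine ⟨Ideal.Quotient.liftₐ (fib B (evG V) 1) φ hker, ?_⟩
  ext i j
  rw [← h2]
  rfl

theorem kset_conj {M : Matrix κ κ F} (hM : M ∈ kset V τ) (u : Γ) :
    τ u * M * τ u⁻¹ ∈ kset V τ := by
  obtain ⟨φ, h1, h2⟩ := hM
  have hm : matOf (ds V τ) (conv (ds V τ) (conv (ds V τ) (evG (ds V τ) u) φ)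
      (evG (ds V τ) u⁻¹)) = Matrix.fromBlocks (V u * 1 * V u⁻¹) 0 0 (τ u * M * τ u⁻¹) := by
    rw [matOf_conv, matOf_conv, matOf_ev, matOf_ev, matOf_blocks V τ φ, h1, h2]
    show Matrix.fromBlocks (V u) 0 0 (τ u) * _ * Matrix.fromBlocks (V u⁻¹) 0 0 (τ u⁻¹) = _
    rw [Matrix.fromBlocks_multiply, Matrix.fromBlocks_multiply]
    simp
  refine ⟨conv (ds V τ) (conv (ds V τ) (evG (ds V τ) u) φ) (evG (ds V τ) u⁻¹), ?_, ?_⟩
  · rw [hm, Matrix.toBlocks_fromBlocks₁₁, mul_one, ← map_mul, mul_inv_cancel, map_one]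
  · rw [hm, Matrix.toBlocks_fromBlocks₂₂]

theorem kset_ne_zero [Nonempty κ] {M : Matrix κ κ F} (hM : M ∈ kset V τ) : M ≠ 0 := by
  rintro rfl
  obtain ⟨φ, h1, h2⟩ := hM
  have h3 := matOf_inv (ds V τ) φ
  rw [matOf_blocks V τ φ, matOf_blocks V τ (φ.comp (ivA (ds V τ))), h2,
    Matrix.fromBlocks_multiply] at h3
  have h4 := congrArg Matrix.toBlocks₂₂ h3
  rw [Matrix.toBlocks_fromBlocks₂₂] at h4
  obtain ⟨i⟩ := (inferInstance : Nonempty κ)
  have h5 := congrFun (congrFun h4 i) i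
  simp [Matrix.toBlocks₂₂] at h5

/-- the stabiliser of an element of `kset` has finite index -/
theorem exists_stab (hint : ∀ i j, IsIntegral (alg V) (fun g => τ g i j))
    {M : Matrix κ κ F} (hM : M ∈ kset V τ) :
    ∃ H : Subgroup Γ, H.FiniteIndex ∧ ∀ u ∈ H, τ u * M = M * τ u := by
  have hinv : ∀ x, τ x * τ x⁻¹ = 1 := fun x => by rw [← map_mul, mul_inv_cancel, map_one]
  have hinv' : ∀ x, τ x⁻¹ * τ x = 1 := fun x => by rw [← map_mul, inv_mul_cancel, map_one]
  let H : Subgroup Γ :=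
    { carrier := {u | τ u * M * τ u⁻¹ = M}
      one_mem' := by
        show τ 1 * M * τ 1⁻¹ = M
        rw [inv_one, map_one, one_mul, mul_one]
      mul_mem' := by
        intro a b ha hb
        have ha' : τ a * M * τ a⁻¹ = M := ha
        have hb' : τ b * M * τ b⁻¹ = M := hb
        show τ (a * b) * M * τ (a * b)⁻¹ = M
        rw [_root_.mul_inv_rev, map_mul, map_mul]
        calc τ a * τ b * M * (τ b⁻¹ * τ a⁻¹) = τ a * (τ b * M * τ b⁻¹) * τ a⁻¹ := by
              simp only [mul_assoc]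
          _ = M := by rw [hb', ha']
      inv_mem' := by
        intro a ha
        have ha' : τ a * M * τ a⁻¹ = M := ha
        show τ a⁻¹ * M * τ (a⁻¹)⁻¹ = M
        rw [inv_inv]
        calc τ a⁻¹ * M * τ a = τ a⁻¹ * (τ a * M * τ a⁻¹) * τ a := by rw [ha']
          _ = (τ a⁻¹ * τ a) * M * (τ a⁻¹ * τ a) := by simp only [mul_assoc]
          _ = M := by rw [hinv', one_mul, mul_one] }
  have hmem : ∀ u, u ∈ H ↔ τ u * M * τ u⁻¹ = M := fun u => Iff.rfl
  have hfin : Finite (Γ ⧸ H) := by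
    have := (kset_finite V τ hint).to_subtype
    let f : Γ ⧸ H → kset V τ := fun q => ⟨_, kset_conj V τ hM q.out⟩
    refine Finite.of_injective f ?_
    intro q1 q2 hq
    have h1 : τ q1.out * M * τ (q1.out)⁻¹ = τ q2.out * M * τ (q2.out)⁻¹ :=
      congrArg Subtype.val hq
    have h2 : (q1.out)⁻¹ * q2.out ∈ H := by
      rw [hmem, _root_.mul_inv_rev, inv_inv, map_mul, map_mul]
      calc τ (q1.out)⁻¹ * τ q2.out * M * (τ (q2.out)⁻¹ * τ q1.out)
          = τ (q1.out)⁻¹ * (τ q2.out * M * τ (q2.out)⁻¹) * τ q1.out := by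
            simp only [mul_assoc]
        _ = τ (q1.out)⁻¹ * (τ q1.out * M * τ (q1.out)⁻¹) * τ q1.out := by rw [h1]
        _ = (τ (q1.out)⁻¹ * τ q1.out) * M * (τ (q1.out)⁻¹ * τ q1.out) := by
            simp only [mul_assoc]
        _ = M := by rw [hinv', one_mul, mul_one]
    rw [← QuotientGroup.eq, QuotientGroup.out_eq', QuotientGroup.out_eq'] at h2
    exact h2
  refine ⟨H, Subgroup.finiteIndex_of_finite_quotient, fun u hu => ?_⟩
  have h1 := (hmem u).mp hu
  calc τ u * M = τ u * M * (τ u⁻¹ * τ u) := by rw [hinv', mul_one]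
    _ = (τ u * M * τ u⁻¹) * τ u := by simp only [mul_assoc]
    _ = M * τ u := by rw [h1]

end fin

section ad

variable {F : Type*} [Field F] {Γ : Type*} [Group Γ]
variable {ι : Type*} [Fintype ι] [DecidableEq ι] (V : Γ →* Matrix ι ι F)
  (ρ : Γ →* Matrix (Fin 2) (Fin 2) F)

theorem unique_ad [IsAlgClosed F] [CharZero F] (hSI : SI ρ)
    (hint : ∀ i j, IsIntegral (alg V) (fun g => ad0 ρ g i j))
    (φ : alg (ds V (ad0 ρ)) →ₐ[F] F) (hφ : (matOf (ds V (ad0 ρ)) φ).toBlocks₁₁ = 1) :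
    (matOf (ds V (ad0 ρ)) φ).toBlocks₂₂ = 1 := by
  set M := (matOf (ds V (ad0 ρ)) φ).toBlocks₂₂ with hM
  have hMk : M ∈ kset V (ad0 ρ) := ⟨φ, hφ, rfl⟩
  obtain ⟨H, hH, hcomm⟩ := exists_stab V (ad0 ρ) hint hMk
  have hirr : Irred (fun h : H => ad0 (ρ.comp H.subtype) h) :=
    ad0_irred (ρ.comp H.subtype) (hSI.restrict ρ H hH)
  obtain ⟨c, hc⟩ := schur _ hirr M (fun g => hcomm g.1 g.2)
  -- the bracket identity
  have hbr : M 1 1 = M 0 0 * M 2 2 - M 0 2 * M 2 0 := by
    let G := gen (ds V (ad0 ρ))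
    have h1 : G (Sum.inr 1) (Sum.inr 1) = G (Sum.inr 0) (Sum.inr 0) * G (Sum.inr 2) (Sum.inr 2) -
        G (Sum.inr 0) (Sum.inr 2) * G (Sum.inr 2) (Sum.inr 0) := by
      apply Subtype.ext
      ext g
      exact ad0_bracket ρ g
    have h2 := congrArg φ h1
    rw [map_sub, map_mul, map_mul] at h2
    exact h2
  rw [hc] at hbr
  simp at hbr
  have hc0 : c ≠ 0 := by
    rintro rfl
    exact kset_ne_zero V (ad0 ρ) hMk (by rw [hc, zero_smul])
  have hc1 : c = 1 := by
    have h3 : c * (c - 1) = 0 := by linear_combination -hbr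
    exact sub_eq_zero.mp ((mul_eq_zero.mp h3).resolve_left hc0)
  rw [hc, hc1, one_smul]

/-- if the coefficients of the adjoint representation are integral over `alg V` then they are in
`alg V` -/
theorem ad_coef_mem [IsAlgClosed F] [CharZero F] (hSI : SI ρ)
    (hint : ∀ i j, IsIntegral (alg V) (fun g => ad0 ρ g i j)) (i j : Fin 3) :
    (fun g => ad0 ρ g i j) ∈ alg V :=
  coef_mem_of_unique V (ad0 ρ) hint (fun φ hφ => unique_ad V ρ hSI hint φ hφ) i j

/-- integrality of the adjoint coefficients from that of the coefficients of `ρ` -/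
theorem ad_integral (hint : ∀ i j, IsIntegral (alg V) (fun g => ρ g i j)) (i j : Fin 3) :
    IsIntegral (alg V) (fun g => ad0 ρ g i j) := by
  have hint' : ∀ i j, IsIntegral (alg V) (fun g => ρ g⁻¹ i j) := fun i j =>
    int_iv V (hint i j)
  have hconj : ∀ (Z : Matrix (Fin 2) (Fin 2) F) (a b : Fin 2),
      IsIntegral (alg V) (fun g => (ρ g * Z * ρ g⁻¹) a b) := by
    intro Z a b
    have h1 : (fun g => (ρ g * Z * ρ g⁻¹) a b) =
        ∑ k, ∑ l, Z l k • ((fun g => ρ g a l) * (fun g => ρ g⁻¹ k b)) := by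
      ext g
      simp only [Matrix.mul_apply, Finset.sum_apply, Pi.smul_apply, Pi.mul_apply, smul_eq_mul,
        Finset.sum_mul]
      apply Finset.sum_congr rfl
      intro k _
      apply Finset.sum_congr rfl
      intro l _
      ring
    rw [h1]
    exact IsIntegral.sum _ fun k _ => IsIntegral.sum _ fun l _ =>
      int_smul _ ((hint a l).mul (hint' k b))
  fin_cases i
  · exact hconj _ 0 1
  · exact hconj _ 0 0
  · exact hconj _ 1 0

end ad

end Pool.Agent.AR
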