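import Mathlib
import Pool.Agent.helper85.AR.Comp
import Pool.Agent.helper85.AR.Uniq
import Pool.Agent.helper85.AR.Alg

/-!
# An algebraic relation on a set of positive measure
-/

namespace Pool.Agent.AR

open Matrix Polynomial Pool.Agent.GO MeasureTheory

section restrict

variable {F : Type*} [Field F] {Γ : Type*} [Group Γ]
variable {ι : Type*} [Fintype ι] [DecidableEq ι] (W : Γ →* Matrix ι ι F) (U : Subgroup Γ)

/-- restriction of functions to a subgroup -/
def resF : (Γ → F) →ₐ[F] (U → F) where
  toFun f := fun u => f u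
  map_one' := rfl
  map_mul' _ _ := rfl
  map_zero' := rfl
  map_add' _ _ := rfl
  commutes' _ := rfl

theorem res_mem {f : Γ → F} (hf : f ∈ alg W) : resF U f ∈ alg (W.comp U.subtype) := by
  have : alg W ≤ (alg (W.comp U.subtype)).comap (resF U) := by
    apply alg_le
    · intro i j
      exact coef_mem (W.comp U.subtype) i j
    · intro i j
      exact coefInv_mem (W.comp U.subtype) i j
  exact this hf

theorem res_surj {f : U → F} (hf : f ∈ alg (W.comp U.subtype)) :
    ∃ f' ∈ alg W, resF U f' = f := by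
  have : alg (W.comp U.subtype) ≤ (alg W).map (resF U) := by
    apply alg_le
    · intro i j
      exact ⟨_, coef_mem W i j, rfl⟩
    · intro i j
      exact ⟨_, coefInv_mem W i j, rfl⟩
  obtain ⟨f', h1, h2⟩ := this hf
  exact ⟨f', h1, h2⟩

/-- `f ↦ (u ↦ f (s u))` from `alg W` to the algebra of the restriction -/
def trRes (s : Γ) : alg W →ₐ[F] alg (W.comp U.subtype) :=
  (((resF U).comp (lt s)).comp (alg W).val).codRestrict (alg (W.comp U.subtype))
    (fun f => res_mem W U (alg_lt W s f.2))

theorem trRes_apply (s : Γ) (f : alg W) (u : U) : (trRes W U s f).1 u = f.1 (s * u) := rfl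

theorem continuous_alg [TopologicalSpace Γ] [IsTopologicalGroup Γ] [TopologicalSpace F]
    [IsTopologicalRing F] (hW : Continuous W) {f : Γ → F} (hf : f ∈ alg W) : Continuous f := by
  unfold alg at hf
  induction hf using Algebra.adjoin_induction with
  | mem x hx =>
    rcases hx with ⟨p, rfl⟩ | ⟨p, rfl⟩
    · exact hW.matrix_elem p.1 p.2
    · exact (hW.comp continuous_inv).matrix_elem p.1 p.2
  | algebraMap r => exact continuous_const
  | add x y _ _ hx hy => exact hx.add hy
  | mul x y _ _ hx hy => exact hx.mul hy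

end restrict

/-- The general form: an algebraic relation for the trace over the algebra of `V`, at the points
of a set not contained in a closed null set. -/
theorem main_group {Γ : Type*} [Group Γ] [TopologicalSpace Γ] [IsTopologicalGroup Γ]
    [CompactSpace Γ] [MeasurableSpace Γ] [BorelSpace Γ] (μ : Measure Γ) [μ.IsHaarMeasure]
    {F : Type*} [Field F] [IsAlgClosed F] [CharZero F] [TopologicalSpace F]
    [IsTopologicalRing F] [T2Space F] {ι : Type*} [Fintype ι] [DecidableEq ι]
    (V : Γ →* Matrix ι ι F) (hV : Continuous V) (ρ : Γ →* Matrix (Fin 2) (Fin 2) F)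
    (hρ : Continuous ρ) (hirr : ∀ U : Subgroup Γ, IsOpen (U : Set Γ) → Irred (fun u : U => ρ u))
    (S : Set Γ) (hS : ∀ C : Set Γ, IsClosed C → μ C = 0 → ∃ s ∈ S, s ∉ C)
    (P : (alg V)[X]) (hP : ∀ s ∈ S, P.map ((evG V s : alg V →ₐ[F] F) : alg V →+* F) ≠ 0 ∧
      (P.map ((evG V s : alg V →ₐ[F] F) : alg V →+* F)).IsRoot (ρ s).trace) :
    ∃ U : Subgroup Γ, IsOpen (U : Set Γ) ∧ SI (ρ.comp U.subtype) ∧
      ∀ i j, (fun u : U => ad0 (ρ.comp U.subtype) u i j) ∈ alg (V.comp U.subtype) := by
  classical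
  have hSI : SI ρ := SI_of_open ρ hρ hirr
  let W := ds V ρ
  have hW : Continuous W := by
    apply continuous_matrix
    intro a b
    show Continuous fun g => Matrix.fromBlocks (V g) 0 0 (ρ g) a b
    rcases a with i | i <;> rcases b with j | j
    · exact hV.matrix_elem i j
    · exact continuous_const
    · exact continuous_const
    · exact hρ.matrix_elem i j
  have hft : Algebra.FiniteType F (alg W) := finiteType_alg W
  have hnoeth : IsNoetherianRing (alg W) := Algebra.FiniteType.isNoetherianRing F _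
  obtain ⟨U, hUopen, hU⟩ := exists_component μ (alg W) (fun f hf => continuous_alg W hW hf)
    (fun f hf h => alg_lt W h hf)
  have hVW : alg V ≤ alg W := alg_le_ds V ρ
  -- the relation as a function
  let f : Γ → F := fun g => ∑ k ∈ Finset.range (P.natDegree + 1), (P.coeff k).1 g *
    ((ρ g).trace) ^ k
  have htr : (fun g => (ρ g).trace) ∈ alg W := by
    have h1 : (fun g => (ρ g).trace) = (fun g => W g (Sum.inr 0) (Sum.inr 0)) +
        fun g => W g (Sum.inr 1) (Sum.inr 1) := by
      ext g
      rw [Matrix.trace_fin_two]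
      rfl
    rw [h1]
    exact Subalgebra.add_mem _ (coef_mem W _ _) (coef_mem W _ _)
  have hfW : f ∈ alg W := by
    have h1 : f = ∑ k ∈ Finset.range (P.natDegree + 1), (P.coeff k).1 *
        (fun g => (ρ g).trace) ^ k := by
      ext g
      simp only [f, Finset.sum_apply, Pi.mul_apply, Pi.pow_apply]
    rw [h1]
    exact Subalgebra.sum_mem _ fun k _ => Subalgebra.mul_mem _ (hVW (P.coeff k).2)
      (Subalgebra.pow_mem _ htr k)
  have hf_eq : ∀ g, f g = (P.map ((evG V g : alg V →ₐ[F] F) : alg V →+* F)).eval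
      (ρ g).trace := by
    intro g
    rw [Polynomial.eval_map, Polynomial.eval₂_eq_sum_range]
    rfl
  have hfcont : Continuous f := continuous_alg W hW hfW
  -- the bad set
  have hUfin : Finite (Γ ⧸ U) := Subgroup.quotient_finite_of_isOpen U hUopen
  let cs : Γ ⧸ U → Set Γ := fun q => {g | (q.out)⁻¹ * g ∈ U}
  have hUclosed : IsClosed (U : Set Γ) := Subgroup.isClosed_of_isOpen U hUopen
  let C : Set Γ := ⋃ q : Γ ⧸ U, if μ ({g | f g = 0} ∩ cs q) = 0 then {g | f g = 0} ∩ cs q else ∅
  have hCclosed : IsClosed C := by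
    apply isClosed_iUnion_of_finite
    intro q
    split_ifs
    · refine (isClosed_singleton.preimage hfcont).inter ?_
      exact hUclosed.preimage (continuous_const.mul continuous_id)
    · exact isClosed_empty
  have hCnull : μ C = 0 := by
    apply measure_iUnion_null
    intro q
    split_ifs with h
    · exact h
    · exact measure_empty
  obtain ⟨s, hsS, hsC⟩ := hS C hCclosed hCnull
  obtain ⟨hs1, hs2⟩ := hP s hsS
  have hfs : f s = 0 := by rw [hf_eq]; exact hs2
  have hpos : μ ({g | f g = 0} ∩ {g | s⁻¹ * g ∈ U}) ≠ 0 := by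
    intro h0
    apply hsC
    have hq : ((QuotientGroup.mk s : Γ ⧸ U).out)⁻¹ * s ∈ U := by
      rw [← QuotientGroup.eq, QuotientGroup.out_eq']
    have hset : cs (QuotientGroup.mk s) = {g | s⁻¹ * g ∈ U} := by
      ext g
      show _ ↔ s⁻¹ * g ∈ U
      have e : ((QuotientGroup.mk s : Γ ⧸ U).out)⁻¹ * g =
          (((QuotientGroup.mk s : Γ ⧸ U).out)⁻¹ * s) * (s⁻¹ * g) := by group
      constructor
      · intro h
        have h1 : ((QuotientGroup.mk s : Γ ⧸ U).out)⁻¹ * g ∈ U := h
        rw [e] at h1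
        exact (U.mul_mem_cancel_left hq).mp h1
      · intro h
        show ((QuotientGroup.mk s : Γ ⧸ U).out)⁻¹ * g ∈ U
        rw [e]
        exact U.mul_mem hq h
    refine Set.mem_iUnion.mpr ⟨QuotientGroup.mk s, ?_⟩
    rw [hset, if_pos h0]
    exact ⟨hfs, by simp [U.one_mem]⟩
  have hvan := hU f hfW s hpos
  -- the group `U`
  refine ⟨U, hUopen, hSI.restrict ρ U (Subgroup.finiteIndex_of_finite_quotient), ?_⟩
  have hSIU : SI (ρ.comp U.subtype) :=
    hSI.restrict ρ U (Subgroup.finiteIndex_of_finite_quotient)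
  have hspan : Submodule.span F (Set.range (ρ.comp U.subtype)) = ⊤ :=
    span_top_of_irred _ (SI.irred _ hSIU)
  have hdom : NoZeroDivisors (alg (V.comp U.subtype)) := by
    constructor
    intro a b hab
    obtain ⟨a', ha', ha⟩ := res_surj V U a.2
    obtain ⟨b', hb', hb⟩ := res_surj V U b.2
    have hcov : (U : Set Γ) ⊆ ({g | a' g = 0} ∩ {g | (1 : Γ)⁻¹ * g ∈ U}) ∪
        ({g | b' g = 0} ∩ {g | (1 : Γ)⁻¹ * g ∈ U}) := by
      intro g hg
      have h1 : a.1 ⟨g, hg⟩ * b.1 ⟨g, hg⟩ = 0 :=
        congrArg (fun z : alg (V.comp U.subtype) => z.1 ⟨g, hg⟩) hab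
      rw [← ha, ← hb] at h1
      have h2 : a' g * b' g = 0 := h1
      have h3 : (1 : Γ)⁻¹ * g ∈ U := by rw [inv_one, one_mul]; exact hg
      rcases mul_eq_zero.mp h2 with h4 | h4
      · left; exact ⟨h4, h3⟩
      · right; exact ⟨h4, h3⟩
    have hUpos : μ (U : Set Γ) ≠ 0 := (hUopen.measure_pos μ ⟨1, U.one_mem⟩).ne'
    have hor : μ ({g | a' g = 0} ∩ {g | (1 : Γ)⁻¹ * g ∈ U}) ≠ 0 ∨
        μ ({g | b' g = 0} ∩ {g | (1 : Γ)⁻¹ * g ∈ U}) ≠ 0 := by
      by_contra hcon
      push Not at hcon
      exact hUpos (measure_mono_null hcov (measure_union_null hcon.1 hcon.2))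
    rcases hor with h | h
    · left
      apply Subtype.ext
      rw [← ha]
      ext u
      exact hU a' (hVW ha') 1 h u.1 (by rw [inv_one, one_mul]; exact u.2)
    · right
      apply Subtype.ext
      rw [← hb]
      ext u
      exact hU b' (hVW hb') 1 h u.1 (by rw [inv_one, one_mul]; exact u.2)
  let PU : (alg (V.comp U.subtype))[X] := P.map ((trRes V U s : alg V →ₐ[F] _) : alg V →+* _)
  have hPU : PU ≠ 0 := by
    intro h0
    apply hs1
    ext k
    have h1 := congrArg (fun Q : (alg (V.comp U.subtype))[X] => (Q.coeff k).1 1) h0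
    simp only [PU, coeff_map, coeff_zero] at h1
    rw [coeff_map, coeff_zero]
    have h2 : (P.coeff k).1 (s * ((1 : U) : Γ)) = 0 := h1
    rw [OneMemClass.coe_one, mul_one] at h2
    exact h2
  have hrel : aeval (fun u : U => (ρ s * (ρ.comp U.subtype) u).trace) PU = 0 := by
    ext u
    have h1 : f (s * u) = 0 := hvan _ (by rw [inv_mul_cancel_left]; exact u.2)
    rw [hf_eq] at h1
    let ev : (U → F) →+* F := Pi.evalRingHom (fun _ => F) u
    show ev (aeval (fun u : U => (ρ s * (ρ.comp U.subtype) u).trace) PU) = 0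
    rw [Polynomial.aeval_def, Polynomial.hom_eval₂, Polynomial.eval₂_map]
    rw [Polynomial.eval_map] at h1
    have h2 : (ev.comp (algebraMap (alg (V.comp U.subtype)) (U → F))).comp
        ((trRes V U s : alg V →ₐ[F] _) : alg V →+* _) =
        ((evG V (s * u) : alg V →ₐ[F] F) : alg V →+* F) := by
      ext a
      rfl
    rw [h2]
    have h3 : ev (fun u : U => (ρ s * (ρ.comp U.subtype) u).trace) = (ρ (s * u)).trace := by
      rw [map_mul]
      rfl
    rw [h3]
    exact h1
  have hdet : IsUnit (ρ s).det := isUnit_iff_ne_zero.mpr (hom_det_ne ρ s)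
  have halg := algebraic_coef (V.comp U.subtype) (ρ.comp U.subtype) hspan (ρ s) hdet PU hPU hrel
  have hint := coef_integral_of_algebraic (V.comp U.subtype) (ρ.comp U.subtype) halg
  exact fun i j => ad_coef_mem (V.comp U.subtype) (ρ.comp U.subtype) hSIU
    (ad_integral (V.comp U.subtype) (ρ.comp U.subtype) hint) i j

end Pool.Agent.AR
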