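import Mathlib

/-!
# Definitions for the statement of `MP_2e0e07_nt.AlgebraicRelation`
-/

namespace Pool.Agent.AR

open Matrix Polynomial

section sums

variable {F : Type*} [Field F] {Γ : Type*} [Group Γ] {r : ℕ} {n : Fin r → ℕ}

/-- the direct sum of finitely many matrix representations -/
def dirSum (V : (i : Fin r) → Γ →* Matrix (Fin (n i)) (Fin (n i)) F) :
    Γ →* Matrix (Σ i : Fin r, Fin (n i)) (Σ i : Fin r, Fin (n i)) F where
  toFun g := Matrix.blockDiagonal' fun i => V i g
  map_one' := by
    have h : (fun i => V i 1) = (1 : (i : Fin r) → Matrix (Fin (n i)) (Fin (n i)) F) := by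
      ext1 i
      exact map_one (V i)
    rw [h, Matrix.blockDiagonal'_one]
  map_mul' g h := by
    rw [← Matrix.blockDiagonal'_mul]
    congr 1
    ext1 i
    exact map_mul (V i) g h

end sums

/-- On the subgroup `U` the representation `g ↦ (Z ↦ ρ(g) Z ρ(g)⁻¹)` of dimension three on the
`2 × 2` matrices of trace zero is a subquotient of `T`: there are a `U`-stable subspace `Q` of the
space of `T` and a linear map from `Q` onto the matrices of trace zero which commutes with `U`. -/
def AdSubquotient {F : Type*} [Field F] {Γ : Type*} [Group Γ] (U : Subgroup Γ)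
    (ρ : Γ →* Matrix (Fin 2) (Fin 2) F) {κ : Type*} [Fintype κ] (T : Γ → Matrix κ κ F) : Prop :=
  ∃ (Q : Submodule F (κ → F)) (hQ : ∀ u ∈ U, ∀ x ∈ Q, T u *ᵥ x ∈ Q)
    (π : Q →ₗ[F] Matrix (Fin 2) (Fin 2) F),
    (∀ Z : Matrix (Fin 2) (Fin 2) F, Z ∈ Set.range π ↔ Z.trace = 0) ∧
    ∀ u, ∀ hu : u ∈ U, ∀ x : Q, π ⟨T u *ᵥ x.1, hQ u hu x.1 x.2⟩ = ρ u * π x * ρ u⁻¹

/-- The representation `V` over `F` is compatible with the polynomials `P v` over `E` along
`ι : E → F`: for all places `v` outside a finite set and all Frobenius elements `s` at `v` the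
characteristic polynomial of `V s` is the image of `P v`. -/
def Compatible {Γ Place E F d : Type*} [Group Γ] [Field E] [Field F] [Fintype d] [DecidableEq d]
    (frob : Place → Set Γ) (ι : E →+* F) (P : Place → E[X]) (V : Γ →* Matrix d d F) : Prop :=
  ∃ T : Set Place, T.Finite ∧ ∀ v ∉ T, ∀ s ∈ frob v, (V s).charpoly = (P v).map ι

end Pool.Agent.AR
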