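import Mathlib
import Pool.Agent.helper85.AR.Defs
import Pool.Agent.helper85.AR.Main

/-!
# The statement for compatible systems
-/

namespace Pool.Agent.AR

open Matrix Polynomial Pool.Agent.GO MeasureTheory

section sums

variable {F : Type*} [Field F] {Γ : Type*} [Group Γ] {r : ℕ} {n : Fin r → ℕ}

theorem dirSum_apply (V : (i : Fin r) → Γ →* Matrix (Fin (n i)) (Fin (n i)) F) (g : Γ)
    (i : Fin r) (a b : Fin (n i)) : dirSum V g ⟨i, a⟩ ⟨i, b⟩ = V i g a b := by
  show Matrix.blockDiagonal' (fun i => V i g) ⟨i, a⟩ ⟨i, b⟩ = _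
  rw [Matrix.blockDiagonal'_apply_eq]

theorem dirSum_continuous [TopologicalSpace Γ] [TopologicalSpace F]
    (V : (i : Fin r) → Γ →* Matrix (Fin (n i)) (Fin (n i)) F) (hV : ∀ i, Continuous (V i)) :
    Continuous (dirSum V) := by
  apply continuous_matrix
  rintro ⟨i, a⟩ ⟨j, b⟩
  by_cases hij : i = j
  · subst hij
    have : (fun g => dirSum V g ⟨i, a⟩ ⟨i, b⟩) = fun g => V i g a b := by
      ext g; exact dirSum_apply V g i a b
    rw [this]
    exact (hV i).matrix_elem a b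
  · have : (fun g => dirSum V g ⟨i, a⟩ ⟨j, b⟩) = fun _ => (0 : F) := by
      ext g
      exact Matrix.blockDiagonal'_apply_ne (fun i => V i g) a b hij
    rw [this]
    exact continuous_const

theorem charcoeff_mem (V : (i : Fin r) → Γ →* Matrix (Fin (n i)) (Fin (n i)) F) (i : Fin r)
    (k : ℕ) : (fun g => (V i g).charpoly.coeff k) ∈ alg (dirSum V) := by
  let M : Matrix (Fin (n i)) (Fin (n i)) (alg (dirSum V)) :=
    Matrix.of fun a b => gen (dirSum V) ⟨i, a⟩ ⟨i, b⟩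
  have h : (fun g => (V i g).charpoly.coeff k) = (M.charpoly.coeff k).1 := by
    ext g
    have h1 : M.map ((evG (dirSum V) g : alg (dirSum V) →ₐ[F] F) : alg (dirSum V) →+* F) =
        V i g := by
      ext a b
      exact dirSum_apply V g i a b
    rw [← h1, Matrix.charpoly_map, Polynomial.coeff_map]
    rfl
  rw [h]
  exact (M.charpoly.coeff k).2

end sums

theorem adSubquotient_of_coef {F : Type*} [Field F] [IsAlgClosed F] [CharZero F] {Γ : Type*}
    [Group Γ] {ι : Type*} [Fintype ι] [DecidableEq ι] (W : Γ →* Matrix ι ι F)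
    (ρ : Γ →* Matrix (Fin 2) (Fin 2) F) (U : Subgroup Γ) (hSI : SI (ρ.comp U.subtype))
    (h : ∀ i j, (fun u : U => ad0 (ρ.comp U.subtype) u i j) ∈ alg (W.comp U.subtype)) :
    ∃ a b : ℕ, AdSubquotient U ρ (tens W a b) := by
  obtain ⟨a, b, Q, hQ, π, hsurj, heq⟩ := subquot_of_coef (W.comp U.subtype)
    (ad0 (ρ.comp U.subtype)) (ad0_irred _ hSI) h
  let emL : (Fin 3 → F) →ₗ[F] Matrix (Fin 2) (Fin 2) F :=
    { toFun := em
      map_add' := em_add
      map_smul' := em_smul }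
  refine ⟨a, b, Q, fun u hu x hx => hQ ⟨u, hu⟩ x hx, emL ∘ₗ π, ?_, ?_⟩
  · intro Z
    constructor
    · rintro ⟨x, rfl⟩
      exact trace_em _
    · intro hZ
      obtain ⟨x, hx⟩ := hsurj (co Z)
      refine ⟨x, ?_⟩
      show em (π x) = Z
      rw [hx, em_co hZ]
  · intro u hu x
    have h1 := heq ⟨u, hu⟩ x
    show em (π _) = ρ u * em (π x) * ρ u⁻¹
    have h2 := em_ad0 (ρ.comp U.subtype) ⟨u, hu⟩ (π x)
    rw [← h1] at h2
    exact h2

theorem main_compatible {Γ Place E F : Type*} [Group Γ] [TopologicalSpace Γ]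
    [IsTopologicalGroup Γ] [CompactSpace Γ] [MeasurableSpace Γ] [BorelSpace Γ]
    (μ : Measure Γ) [μ.IsHaarMeasure] (frob : Place → Set Γ) [Field E]
    {r : ℕ} {n : Fin r → ℕ} (P : Fin r → Place → E[X]) (Q : Place → E[X])
    (S : Set Place)
    (hS : ∀ (C : Set Γ) (T : Set Place), IsClosed C → μ C = 0 → T.Finite →
      ∃ v ∈ S, v ∉ T ∧ ∃ s ∈ frob v, s ∉ C)
    (Φ : (MvPolynomial (Fin r × ℕ) E)[X])
    (hΦ : ∀ v ∈ S, Φ.map (MvPolynomial.eval fun k => (P k.1 v).coeff k.2) ≠ 0 ∧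
      (Φ.map (MvPolynomial.eval fun k => (P k.1 v).coeff k.2)).IsRoot (-(Q v).coeff 1))
    [Field F] [IsAlgClosed F] [CharZero F] [TopologicalSpace F] [IsTopologicalRing F] [T2Space F]
    (ι : E →+* F) (V : (i : Fin r) → Γ →* Matrix (Fin (n i)) (Fin (n i)) F)
    (ρ : Γ →* Matrix (Fin 2) (Fin 2) F)
    (hVc : ∀ i, Continuous (V i)) (hρc : Continuous ρ)
    (hV : ∀ i, Compatible frob ι (P i) (V i)) (hρ : Compatible frob ι Q ρ)
    (hirr : ∀ U : Subgroup Γ, IsOpen (U : Set Γ) → Irred (fun u : U => ρ u)) :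
    ∃ U : Subgroup Γ, IsOpen (U : Set Γ) ∧ ∃ a b : ℕ,
      AdSubquotient U ρ (tens (dirSum V) a b) := by
  classical
  choose TV hTV hTV' using hV
  obtain ⟨Tρ, hTρ, hTρ'⟩ := hρ
  set T : Set Place := (⋃ i, TV i) ∪ Tρ with hT
  have hTfin : T.Finite := (Set.finite_iUnion hTV).union hTρ
  -- the relation over the algebra of coefficients
  let c : Fin r × ℕ → alg (dirSum V) := fun k =>
    ⟨fun g => (V k.1 g).charpoly.coeff k.2, charcoeff_mem V k.1 k.2⟩
  let θ : MvPolynomial (Fin r × ℕ) E →+* alg (dirSum V) :=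
    MvPolynomial.eval₂Hom ((algebraMap F (alg (dirSum V))).comp ι) c
  have hθ : ∀ v, v ∉ T → ∀ s ∈ frob v,
      ((evG (dirSum V) s : alg (dirSum V) →ₐ[F] F) : alg (dirSum V) →+* F).comp θ =
        ι.comp (MvPolynomial.eval fun k => (P k.1 v).coeff k.2) := by
    intro v hv s hs
    apply MvPolynomial.ringHom_ext
    · intro x
      simp only [RingHom.comp_apply, θ, MvPolynomial.coe_eval₂Hom, MvPolynomial.eval₂_C,
        MvPolynomial.eval_C]
      exact AlgHom.commutes (evG (dirSum V) s) (ι x)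
    · intro k
      simp only [RingHom.comp_apply, θ, MvPolynomial.coe_eval₂Hom, MvPolynomial.eval₂_X,
        MvPolynomial.eval_X]
      have h1 : v ∉ TV k.1 := fun h => hv (Or.inl (Set.mem_iUnion.mpr ⟨k.1, h⟩))
      show (V k.1 s).charpoly.coeff k.2 = _
      rw [hTV' k.1 v h1 s hs, Polynomial.coeff_map]
  obtain ⟨U, hU, hSI, hcoef⟩ := main_group μ (dirSum V) (dirSum_continuous V hVc) ρ hρc hirr
    (⋃ v ∈ S \ T, frob v) (by
      intro C hC hC0
      obtain ⟨v, hvS, hvT, s, hs, hsC⟩ := hS C T hC hC0 hTfin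
      refine ⟨s, ?_, hsC⟩
      simp only [Set.mem_iUnion]
      exact ⟨v, ⟨hvS, hvT⟩, hs⟩) (Φ.map θ) (by
      intro s hs
      simp only [Set.mem_iUnion] at hs
      obtain ⟨v, ⟨hvS, hvT⟩, hs⟩ := hs
      obtain ⟨h1, h2⟩ := hΦ v hvS
      rw [Polynomial.map_map, hθ v hvT s hs, ← Polynomial.map_map]
      refine ⟨(Polynomial.map_ne_zero_iff ι.injective).mpr h1, ?_⟩
      have h3 : (ρ s).trace = ι (-(Q v).coeff 1) := by
        have h4 := hTρ' v (fun h => hvT (Or.inr h)) s hs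
        have h5 := congrArg (fun p : F[X] => p.coeff 1) h4
        simp only [Polynomial.coeff_map] at h5
        rw [map_neg, ← h5, Matrix.charpoly_fin_two]
        simp [Polynomial.coeff_C]
      rw [h3]
      exact h2.map)
  exact ⟨U, hU, adSubquotient_of_coef (dirSum V) ρ U hSI hcoef⟩

end Pool.Agent.AR
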