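import Mathlib
import Pool.Agent.helper85.AR.Main
import Pool.Agent.helper85.AR.Defs

/-!
# A zero-one law for common eigenvalues
-/

namespace Pool.Agent.AR

open Matrix Polynomial Pool.Agent.GO MeasureTheory

section gen

variable {F : Type*} [Field F] {Γ : Type*} [Group Γ]
variable {ι : Type*} [Fintype ι] [DecidableEq ι] (V : Γ →* Matrix ι ι F)
  (ρ : Γ →* Matrix (Fin 2) (Fin 2) F)

/-- the determinant of the Sylvester matrix is a function of the algebra of `V ⊕ ρ` -/
theorem det_syl_mem : (fun g => (syl (V g) (ρ g)).det) ∈ alg (ds V ρ) := by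
  let XV : Matrix ι ι (alg (ds V ρ)) := (gen (ds V ρ)).toBlocks₁₁
  let XR : Matrix (Fin 2) (Fin 2) (alg (ds V ρ)) := (gen (ds V ρ)).toBlocks₂₂
  have h : (fun g => (syl (V g) (ρ g)).det) = ((syl XV XR).det).1 := by
    ext g
    have h1 := map_det_syl (evG (ds V ρ) g : alg (ds V ρ) →+* F) XV XR
    have h2 : XV.map (evG (ds V ρ) g : alg (ds V ρ) →+* F) = V g := by ext i j; rfl
    have h3 : XR.map (evG (ds V ρ) g : alg (ds V ρ) →+* F) = ρ g := by ext i j; rfl
    rw [h2, h3] at h1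
    exact h1.symm
  rw [h]
  exact ((syl XV XR).det).2

end gen

/-- The component: there is an open subgroup such that common eigenvalues on a non-negligible set
of elements of it give common eigenvalues on the subgroup. -/
theorem zero_one_group {Γ : Type*} [Group Γ] [TopologicalSpace Γ] [IsTopologicalGroup Γ]
    [CompactSpace Γ] [MeasurableSpace Γ] [BorelSpace Γ] (μ : Measure Γ) [μ.IsHaarMeasure]
    {F : Type*} [Field F] [TopologicalSpace F]
    [IsTopologicalRing F] [T2Space F] {ι : Type*} [Fintype ι] [DecidableEq ι]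
    (V : Γ →* Matrix ι ι F) (hV : Continuous V) (ρ : Γ →* Matrix (Fin 2) (Fin 2) F)
    (hρ : Continuous ρ) :
    ∃ U : Subgroup Γ, IsOpen (U : Set Γ) ∧ ∀ S : Set Γ,
      (∀ C : Set Γ, IsClosed C → μ C = 0 → ∃ s ∈ S, s ∈ U ∧ s ∉ C) →
      (∀ s ∈ S, (syl (V s) (ρ s)).det = 0) → ∀ u ∈ U, (syl (V u) (ρ u)).det = 0 := by
  classical
  let W := ds V ρ
  have hW : Continuous W := by
    apply continuous_matrix
    intro a b
    show Continuous fun g => Matrix.fromBlocks (V g) 0 0 (ρ g) a b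
    rcases a with i | i <;> rcases b with j | j
    · exact hV.matrix_elem i j
    · exact continuous_const
    · exact continuous_const
    · exact hρ.matrix_elem i j
  have hft : Algebra.FiniteType F (alg W) := finiteType_alg W
  have hnoeth : IsNoetherianRing (alg W) := Algebra.FiniteType.isNoetherianRing F _
  obtain ⟨U, hUopen, hU⟩ := exists_component μ (alg W) (fun f hf => continuous_alg W hW hf)
    (fun f hf h => alg_lt W h hf)
  refine ⟨U, hUopen, fun S hS hz u hu => ?_⟩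
  have hf : (fun g => (syl (V g) (ρ g)).det) ∈ alg W := det_syl_mem V ρ
  have hfcont := continuous_alg W hW hf
  refine hU _ hf 1 ?_ u (by rw [inv_one, one_mul]; exact hu)
  intro h0
  have hUclosed : IsClosed (U : Set Γ) := Subgroup.isClosed_of_isOpen U hUopen
  obtain ⟨s, hs, hsU, hsC⟩ := hS _ ((isClosed_singleton.preimage hfcont).inter
    (hUclosed.preimage (continuous_const.mul continuous_id))) h0
  apply hsC
  exact ⟨hz s hs, by
    show (1 : Γ)⁻¹ * s ∈ U
    rw [inv_one, one_mul]; exact hsU⟩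

theorem zero_one_compatible {Γ Place E F₀ : Type*} [Group Γ] [TopologicalSpace Γ]
    [IsTopologicalGroup Γ] [CompactSpace Γ] [MeasurableSpace Γ] [BorelSpace Γ]
    (μ : Measure Γ) [μ.IsHaarMeasure] (frob : Place → Set Γ)
    (hfrob : ∀ T : Set Place, T.Finite → Dense (⋃ v ∈ Tᶜ, frob v)) [Field E]
    (P Q : Place → E[X])
    [Field F₀] [TopologicalSpace F₀] [IsTopologicalRing F₀] [T2Space F₀] [IsAlgClosed F₀]
    (ι₀ : E →+* F₀) {n₀ : ℕ} (V₀ : Γ →* Matrix (Fin n₀) (Fin n₀) F₀)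
    (ρ₀ : Γ →* Matrix (Fin 2) (Fin 2) F₀) (hV₀c : Continuous V₀) (hρ₀c : Continuous ρ₀)
    (hV₀ : Compatible frob ι₀ P V₀) (hρ₀ : Compatible frob ι₀ Q ρ₀) :
    ∃ U : Subgroup Γ, IsOpen (U : Set Γ) ∧ ∀ S : Set Place,
      (∀ (C : Set Γ) (T : Set Place), IsClosed C → μ C = 0 → T.Finite →
        ∃ v ∈ S, v ∉ T ∧ ∃ s ∈ frob v, s ∈ U ∧ s ∉ C) →
      (∀ v ∈ S, ¬ IsCoprime (P v) (Q v)) →
      ∀ (F : Type*) [Field F] [IsAlgClosed F] [CharZero F] [TopologicalSpace F]
        [IsTopologicalRing F] [T2Space F] (ι : E →+* F) (n : ℕ)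
        (V : Γ →* Matrix (Fin n) (Fin n) F) (ρ : Γ →* Matrix (Fin 2) (Fin 2) F),
        Continuous V → Continuous ρ → Compatible frob ι P V → Compatible frob ι Q ρ →
        Irred (fun u : U => ρ u) →
        ∃ a b : ℕ, IsSubquotient (fun u : U => ρ u) (fun u : U => tens V a b u) := by
  obtain ⟨U, hU, hzo⟩ := zero_one_group μ V₀ hV₀c ρ₀ hρ₀c
  refine ⟨U, hU, ?_⟩
  intro S hS hSz F _ _ _ _ _ _ ι n V ρ hVc hρc hV hρ hirr
  obtain ⟨T₁, hT₁, h₁⟩ := hV₀
  obtain ⟨T₂, hT₂, h₂⟩ := hρ₀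
  obtain ⟨T₃, hT₃, h₃⟩ := hV
  obtain ⟨T₄, hT₄, h₄⟩ := hρ
  -- common eigenvalues of `V₀` and `ρ₀` on `U`
  have hmonic : ∀ v ∉ T₁, ∀ s ∈ frob v, P v ≠ 0 := by
    intro v hv s hs h0
    have := h₁ v hv s hs
    rw [h0, Polynomial.map_zero] at this
    exact (Matrix.charpoly_monic (V₀ s)).ne_zero this
  have hall := hzo (⋃ v ∈ S \ (T₁ ∪ T₂), frob v) (by
      intro C hC hC0
      obtain ⟨v, hvS, hvT, s, hs, hsU, hsC⟩ := hS C (T₁ ∪ T₂) hC hC0 (hT₁.union hT₂)
      refine ⟨s, ?_, hsU, hsC⟩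
      simp only [Set.mem_iUnion]
      exact ⟨v, ⟨hvS, hvT⟩, hs⟩) (by
      intro s hs
      simp only [Set.mem_iUnion] at hs
      obtain ⟨v, ⟨hvS, hvT⟩, hs⟩ := hs
      have hv1 : v ∉ T₁ := fun h => hvT (Or.inl h)
      have hv2 : v ∉ T₂ := fun h => hvT (Or.inr h)
      obtain ⟨μ', e1, e2⟩ := common_root_transfer ι₀ (hmonic v hv1 s hs) (hSz v hvS)
      exact det_syl_of_common ⟨μ', by rw [h₁ v hv1 s hs]; exact e1,
        by rw [h₂ v hv2 s hs]; exact e2⟩)
  -- transfer to `V` and `ρ`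
  have hU' : ∀ u : U, CommonEigenvalue (V.comp U.subtype u) (ρ.comp U.subtype u) := by
    intro u
    apply common_of_det_syl
    have hcont : Continuous (fun g => (syl (V g) (ρ g)).det) := by
      apply Continuous.matrix_det
      apply continuous_matrix
      intro p q
      simp only [syl, Matrix.of_apply]
      apply Continuous.sub
      · exact (hVc.matrix_elem p.1 q.1).mul continuous_const
      · exact continuous_const.mul (hρc.matrix_elem q.2 p.2)
    have hcl : IsClosed {g | (syl (V g) (ρ g)).det = 0} := isClosed_singleton.preimage hcont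
    set T := T₁ ∪ T₂ ∪ T₃ ∪ T₄ with hT
    have hTfin : T.Finite := ((hT₁.union hT₂).union hT₃).union hT₄
    have hsub : (U : Set Γ) ∩ (⋃ v ∈ Tᶜ, frob v) ⊆ {g | (syl (V g) (ρ g)).det = 0} := by
      rintro s ⟨hsU, hs⟩
      simp only [Set.mem_iUnion] at hs
      obtain ⟨v, hv, hs⟩ := hs
      have hv1 : v ∉ T₁ := fun h => hv (by simp [hT, h])
      have hv2 : v ∉ T₂ := fun h => hv (by simp [hT, h])
      have hv3 : v ∉ T₃ := fun h => hv (by simp [hT, h])
      have hv4 : v ∉ T₄ := fun h => hv (by simp [hT, h])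
      obtain ⟨μ', e1, e2⟩ := common_of_det_syl (hall s hsU)
      rw [h₁ v hv1 s hs] at e1
      rw [h₂ v hv2 s hs] at e2
      have hnc := not_coprime_of_common_root ι₀ e1 e2
      obtain ⟨ν, f1, f2⟩ := common_root_transfer ι (hmonic v hv1 s hs) hnc
      exact det_syl_of_common ⟨ν, by rw [h₃ v hv3 s hs]; exact f1,
        by rw [h₄ v hv4 s hs]; exact f2⟩
    have hdense : (U : Set Γ) ⊆ closure ((U : Set Γ) ∩ ⋃ v ∈ Tᶜ, frob v) :=
      (hfrob T hTfin).open_subset_closure_inter hU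
    exact hcl.closure_subset_iff.mpr hsub (hdense u.2)
  obtain ⟨a, b, h⟩ := criterion_group (V.comp U.subtype) (ρ.comp U.subtype) hirr hU'
  exact ⟨a, b, h⟩

end Pool.Agent.AR
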